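import Mathlib

open scoped InnerProductSpace ENNReal

namespace Pool.Agent.Helper55.SvN

universe u

variable {H : Type u} [NormedAddCommGroup H] [InnerProductSpace ℂ H] [CompleteSpace H]

/-- The positive operator `|c|^p = (c* c)^{p/2}` (real power of a positive operator, defined by
the continuous functional calculus). -/
noncomputable def absPow (p : ℝ) (c : H →L[ℂ] H) : H →L[ℂ] H := (star c * c) ^ (p / 2)

/-- `tr |c|^p = tr (c* c)^{p/2}`, an element of `[0, ∞]`, where the trace of the positive operator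
`(c* c)^{p/2}` is computed in the orthonormal basis `b`. -/
noncomputable def traceAbsPow (b : HilbertBasis ℕ ℂ H) (p : ℝ) (c : H →L[ℂ] H) : ℝ≥0∞ :=
  ∑' i : ℕ, ENNReal.ofReal (RCLike.re ⟪b i, absPow p c (b i)⟫_ℂ)

/-- If `A e = t e` with `A ≥ 0` then `A^r e = t^r e` (`r ≥ 0`). -/
theorem rpow_apply_eigenvector {A : H →L[ℂ] H} (hA : 0 ≤ A) {e : H} {t : ℝ}
    (he : e ≠ 0) (hAe : A e = (t : ℂ) • e) {r : ℝ} (hr : 0 ≤ r) :
    (A ^ r : H →L[ℂ] H) e = ((t ^ r : ℝ) : ℂ) • e := by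
  have hsa : IsSelfAdjoint A := IsSelfAdjoint.of_nonneg hA
  have htmem : t ∈ spectrum ℝ A := by
    rw [spectrum.mem_iff]
    intro hu
    have h1 : (algebraMap ℝ (H →L[ℂ] H) t - A) e = 0 := by
      simp [Algebra.algebraMap_eq_smul_one, hAe]
    obtain ⟨u, hu⟩ := hu
    have h2 : (↑u⁻¹ * ↑u : H →L[ℂ] H) e = 0 := by
      rw [mul_apply_eq_comp, hu, h1, map_zero]
    rw [Units.inv_mul] at h2
    exact he (by simpa using h2)
  have key : ∀ f : C(spectrum ℝ A, ℝ), (cfcHom hsa f) e = ((f ⟨t, htmem⟩ : ℝ) : ℂ) • e := by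
    intro f
    induction f using ContinuousMap.induction_on_of_compact with
    | const r =>
      have : (ContinuousMap.const (spectrum ℝ A) r) = algebraMap ℝ C(spectrum ℝ A, ℝ) r := rfl
      rw [this, AlgHomClass.commutes]
      simp [Algebra.algebraMap_eq_smul_one]
    | id =>
      rw [cfcHom_id hsa]
      simpa using hAe
    | star_id =>
      rw [map_star, cfcHom_id hsa, hsa.star_eq]
      simpa using hAe
    | add f g hf hg => simp [hf, hg, add_smul]
    | mul f g hf hg =>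
      simp only [map_mul, mul_apply_eq_comp, hg, map_smul, hf, ContinuousMap.mul_apply,
        Complex.ofReal_mul, smul_smul]
      rw [mul_comm]
    | frequently f hf =>
      have hcl : IsClosed {g : C(spectrum ℝ A, ℝ) |
          (cfcHom hsa g) e = ((g ⟨t, htmem⟩ : ℝ) : ℂ) • e} := by
        refine isClosed_eq ?_ ?_
        · have := cfcHom_continuous (R := ℝ) hsa
          exact (ContinuousLinearMap.apply ℂ H e).continuous.comp this
        · fun_prop
      exact hcl.mem_of_frequently_of_tendsto hf Filter.tendsto_id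
  rw [CFC.rpow_eq_cfc_real hA]
  have hc : ContinuousOn (fun x : ℝ => x ^ r) (spectrum ℝ A) :=
    (Real.continuous_rpow_const hr).continuousOn
  rw [cfc_apply (fun x : ℝ => x ^ r) A hsa hc]
  exact key _

/-- Spectral theorem: for compact `c` there is an orthonormal basis of eigenvectors of `c* c`. -/
theorem exists_singularBasis {c : H →L[ℂ] H} (hc : IsCompactOperator c) :
    ∃ (ι : Type u) (e : HilbertBasis ι ℂ H),
      ∀ i, (star c * c) (e i) = ((‖c (e i)‖ ^ 2 : ℝ) : ℂ) • e i := by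
  set A : H →L[ℂ] H := star c * c with hA
  have hAc : IsCompactOperator A := hc.clm_comp (star c)
  have hAsa : IsSelfAdjoint A := IsSelfAdjoint.star_mul_self c
  have hAsymm : A.IsSymmetric := hAsa.isSymmetric
  have hcomp : ∀ μ : ℂ, CompleteSpace (Module.End.eigenspace (A : Module.End ℂ H) μ) := by
    intro μ
    have hcl : IsClosed ((Module.End.eigenspace (A : Module.End ℂ H) μ : Submodule ℂ H) : Set H) := by
      have : ((Module.End.eigenspace (A : Module.End ℂ H) μ : Submodule ℂ H) : Set H)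
          = {x | A x = μ • x} := by
        ext x
        simp
      rw [this]
      exact isClosed_eq (by fun_prop) (by fun_prop)
    exact hcl.completeSpace_coe
  choose w b hb using fun μ : ℂ =>
    exists_hilbertBasis ℂ (Module.End.eigenspace (A : Module.End ℂ H) μ)
  have horth := hAsymm.orthogonalFamily_eigenspaces
  have hon := horth.orthonormal_sigma_orthonormal (v_family := fun μ => b μ)
    (fun μ => (b μ).orthonormal)
  set v : (Σ μ : ℂ, w μ) → H := fun a =>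
    (Module.End.eigenspace (A : Module.End ℂ H) a.1).subtypeₗᵢ (b a.1 a.2) with hv
  have hsp : (Submodule.span ℂ (Set.range v))ᗮ = ⊥ := by
    rw [eq_bot_iff, ← A.orthogonalComplement_iSup_eigenspaces_eq_bot hAc hAsymm]
    intro x hx
    rw [Submodule.mem_orthogonal] at hx ⊢
    intro u hu
    induction hu using Submodule.iSup_induction' with
    | mem μ u hu =>
      have h1 := (b μ).hasSum_repr ⟨u, hu⟩
      have h2 := h1.mapL ((Module.End.eigenspace (A : Module.End ℂ H) μ).subtypeL)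
      have h3 := h2.mapL (innerSL ℂ x)
      have h4 : ∀ i : w μ, (innerSL ℂ x) ((Module.End.eigenspace (A : Module.End ℂ H) μ).subtypeL
          (((b μ).repr ⟨u, hu⟩) i • (b μ) i)) = 0 := by
        intro i
        have h5 := hx (v ⟨μ, i⟩) (Submodule.subset_span ⟨⟨μ, i⟩, rfl⟩)
        rw [map_smul, map_smul, innerSL_apply_apply]
        have h6 : ⟪x, v ⟨μ, i⟩⟫_ℂ = 0 := by rw [← inner_conj_symm, h5, map_zero]
        simp only [hv, Submodule.coe_subtypeₗᵢ, Submodule.subtype_apply] at h6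
        simp [h6]
      have h7 : HasSum (fun i : w μ => (0 : ℂ)) ((innerSL ℂ x) u) := by
        have h9 : (fun i : w μ => (0 : ℂ)) = fun i : w μ => (innerSL ℂ x)
          ((Module.End.eigenspace (A : Module.End ℂ H) μ).subtypeL
          (((b μ).repr ⟨u, hu⟩) i • (b μ) i)) := funext fun i => (h4 i).symm
        rw [h9]
        exact h3
      have h8 := h7.unique hasSum_zero
      rw [innerSL_apply_apply] at h8
      rw [← inner_conj_symm, h8, map_zero]
    | zero => simp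
    | add a b _ _ ha hb => rw [inner_add_left, ha, hb, add_zero]
  refine ⟨Σ μ : ℂ, w μ, HilbertBasis.mkOfOrthogonalEqBot hon hsp, ?_⟩
  intro i
  rw [HilbertBasis.coe_mkOfOrthogonalEqBot]
  have hmem : v i ∈ Module.End.eigenspace (A : Module.End ℂ H) i.1 := (b i.1 i.2).2
  have hev : A (v i) = i.1 • v i := by
    have := Module.End.mem_eigenspace_iff.1 hmem
    simpa using this
  have hnorm : ‖v i‖ = 1 := hon.1 i
  have h1 : ⟪v i, A (v i)⟫_ℂ = i.1 := by
    rw [hev, inner_smul_right, inner_self_eq_norm_sq_to_K, hnorm]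
    simp
  have h2 : ⟪v i, A (v i)⟫_ℂ = ((‖c (v i)‖ ^ 2 : ℝ) : ℂ) := by
    rw [hA, mul_apply_eq_comp, ContinuousLinearMap.star_eq_adjoint,
      ContinuousLinearMap.adjoint_inner_right, inner_self_eq_norm_sq_to_K]
    simp
  rw [hev, ← h1, h2]

omit [CompleteSpace H] in
/-- Parseval's identity, in `[0, ∞]`. -/
theorem tsum_enorm_inner_sq {ι : Type*} (b : HilbertBasis ι ℂ H) (x : H) :
    ∑' j, ‖⟪b j, x⟫_ℂ‖ₑ ^ 2 = ‖x‖ₑ ^ 2 := by
  have h1 := b.hasSum_inner_mul_inner x x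
  have h2 : ∀ j, ⟪x, b j⟫_ℂ * ⟪b j, x⟫_ℂ = ((‖⟪b j, x⟫_ℂ‖ ^ 2 : ℝ) : ℂ) := by
    intro j
    rw [← inner_conj_symm, ← Complex.normSq_eq_norm_sq, mul_comm]
    exact Complex.mul_conj _
  have h3 : ⟪x, x⟫_ℂ = ((‖x‖ ^ 2 : ℝ) : ℂ) := by
    rw [inner_self_eq_norm_sq_to_K]; simp
  rw [h3] at h1
  simp_rw [h2] at h1
  have h4 : HasSum (fun j => ‖⟪b j, x⟫_ℂ‖ ^ 2) (‖x‖ ^ 2) := by exact_mod_cast h1
  have h5 : ∑' j, ENNReal.ofReal (‖⟪b j, x⟫_ℂ‖ ^ 2) = ENNReal.ofReal (‖x‖ ^ 2) := by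
    rw [← h4.tsum_eq, ENNReal.ofReal_tsum_of_nonneg (fun _ => by positivity) h4.summable]
  have h6 : ∀ (E : Type u) [NormedAddCommGroup E] (y : E), ENNReal.ofReal (‖y‖ ^ 2) = ‖y‖ₑ ^ 2 := by
    intro E _ y
    rw [ENNReal.ofReal_pow (norm_nonneg y), ofReal_norm]
  have h7 : ∀ z : ℂ, ENNReal.ofReal (‖z‖ ^ 2) = ‖z‖ₑ ^ 2 := by
    intro y
    rw [ENNReal.ofReal_pow (norm_nonneg y), ofReal_norm]
  simpa [h6, h7] using h5

/-- The trace `tr |c|^p` in terms of an orthonormal basis of eigenvectors of `c* c`. -/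
theorem traceAbsPow_eq_tsum {ι : Type*} (b : HilbertBasis ℕ ℂ H) {p : ℝ} (hp : 0 < p)
    {c : H →L[ℂ] H} (e : HilbertBasis ι ℂ H)
    (he : ∀ i, (star c * c) (e i) = ((‖c (e i)‖ ^ 2 : ℝ) : ℂ) • e i) :
    traceAbsPow b p c = ∑' i, ‖c (e i)‖ₑ ^ p := by
  have hpos : 0 ≤ star c * c := star_mul_self_nonneg c
  set D : H →L[ℂ] H := (star c * c) ^ (p / 2) with hD
  have hDnn : 0 ≤ D := CFC.rpow_nonneg
  have hDsa : IsSelfAdjoint D := IsSelfAdjoint.of_nonneg hDnn
  have hDe : ∀ i, D (e i) = ((‖c (e i)‖ ^ p : ℝ) : ℂ) • e i := by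
    intro i
    rw [hD, rpow_apply_eigenvector hpos (e.orthonormal.ne_zero i) (he i) (by positivity),
      ← Real.rpow_natCast, ← Real.rpow_mul (norm_nonneg _)]
    congr 3
    push_cast
    ring
  have key : ∀ j, ENNReal.ofReal (RCLike.re ⟪b j, D (b j)⟫_ℂ)
      = ∑' i, ‖c (e i)‖ₑ ^ p * ‖⟪b j, e i⟫_ℂ‖ₑ ^ 2 := by
    intro j
    have h1 := e.hasSum_inner_mul_inner (b j) (D (b j))
    have h2 : ∀ i, ⟪b j, e i⟫_ℂ * ⟪e i, D (b j)⟫_ℂ
        = ((‖c (e i)‖ ^ p * ‖⟪b j, e i⟫_ℂ‖ ^ 2 : ℝ) : ℂ) := by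
      intro i
      have h3 : ⟪e i, D (b j)⟫_ℂ = ⟪D (e i), b j⟫_ℂ := (hDsa.isSymmetric (e i) (b j)).symm
      rw [h3, hDe, inner_smul_left, Complex.conj_ofReal, ← inner_conj_symm (e i) (b j)]
      rw [mul_left_comm, Complex.mul_conj, Complex.normSq_eq_norm_sq]
      push_cast
      ring
    simp_rw [h2] at h1
    have h4 : HasSum (fun i => ‖c (e i)‖ ^ p * ‖⟪b j, e i⟫_ℂ‖ ^ 2) (RCLike.re ⟪b j, D (b j)⟫_ℂ) := by
      have := Complex.hasSum_re h1
      simp only [Complex.ofReal_re] at this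
      exact this
    rw [← h4.tsum_eq, ENNReal.ofReal_tsum_of_nonneg (fun _ => by positivity) h4.summable]
    refine tsum_congr fun i => ?_
    rw [ENNReal.ofReal_mul (by positivity), ENNReal.ofReal_pow (norm_nonneg _),
      ofReal_norm, ← ENNReal.ofReal_rpow_of_nonneg (norm_nonneg _) hp.le,
      ofReal_norm]
  have htr : traceAbsPow b p c = ∑' j, ENNReal.ofReal (RCLike.re ⟪b j, D (b j)⟫_ℂ) := rfl
  rw [htr]
  simp_rw [key]
  rw [ENNReal.tsum_comm]
  refine tsum_congr fun i => ?_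
  rw [ENNReal.tsum_mul_left]
  have h5 : ∑' j, ‖⟪b j, e i⟫_ℂ‖ₑ ^ 2 = 1 := by
    rw [tsum_enorm_inner_sq b (e i)]
    have : ‖e i‖ = 1 := e.orthonormal.1 i
    rw [← ofReal_norm, this]
    simp
  rw [h5, mul_one]

end Pool.Agent.Helper55.SvN
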