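import Mathlib
import Pool.Agent.Helper55_Schatten.Defs

open scoped InnerProductSpace ENNReal

namespace Pool.Agent.Helper55.SvN

universe u

variable {H : Type u} [NormedAddCommGroup H] [InnerProductSpace ℂ H] [CompleteSpace H]

/-! ### Auxiliary inequalities in `[0, ∞]` -/

/-- Jensen's inequality for sub-probability weights. -/
theorem tsum_mul_rpow_le {ι : Type*} (s w : ι → ℝ≥0∞) (hw : ∑' i, w i ≤ 1) {p : ℝ} (hp : 1 ≤ p) :
    (∑' i, s i * w i) ^ p ≤ ∑' i, s i ^ p * w i := by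
  rcases eq_or_lt_of_le hp with rfl | hp1
  · simp
  have hp0 : 0 < p := by linarith
  have hpq : p.HolderConjugate p.conjExponent := Real.HolderConjugate.conjExponent hp1
  set q := p.conjExponent with hq
  have hq0 : 0 < q := hpq.symm.pos
  have key : ∑' i, s i * w i ≤ (∑' i, s i ^ p * w i) ^ (1 / p) := by
    rw [ENNReal.tsum_eq_iSup_sum]
    refine iSup_le fun F => ?_
    have h1 : ∀ i, s i * w i = (s i * w i ^ (1 / p)) * w i ^ (1 / q) := by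
      intro i
      rw [mul_assoc, ← ENNReal.rpow_add_of_nonneg _ _ (by positivity) (by positivity)]
      have : 1 / p + 1 / q = 1 := by simpa [one_div] using hpq.inv_add_inv_eq_one
      rw [this, ENNReal.rpow_one]
    calc ∑ i ∈ F, s i * w i = ∑ i ∈ F, (s i * w i ^ (1 / p)) * w i ^ (1 / q) :=
          Finset.sum_congr rfl fun i _ => h1 i
      _ ≤ (∑ i ∈ F, (s i * w i ^ (1 / p)) ^ p) ^ (1 / p)
          * (∑ i ∈ F, (w i ^ (1 / q)) ^ q) ^ (1 / q) := ENNReal.inner_le_Lp_mul_Lq F _ _ hpq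
      _ = (∑ i ∈ F, s i ^ p * w i) ^ (1 / p) * (∑ i ∈ F, w i) ^ (1 / q) := by
          congr 2
          · refine Finset.sum_congr rfl fun i _ => ?_
            rw [ENNReal.mul_rpow_of_nonneg _ _ hp0.le, ← ENNReal.rpow_mul,
              one_div_mul_cancel hp0.ne', ENNReal.rpow_one]
          · refine Finset.sum_congr rfl fun i _ => ?_
            rw [← ENNReal.rpow_mul, one_div_mul_cancel hq0.ne', ENNReal.rpow_one]
      _ ≤ (∑' i, s i ^ p * w i) ^ (1 / p) * 1 := by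
          gcongr
          · exact ENNReal.sum_le_tsum F
          · calc (∑ i ∈ F, w i) ^ (1 / q) ≤ (1 : ℝ≥0∞) ^ (1 / q) := by
                  gcongr
                  exact (ENNReal.sum_le_tsum F).trans hw
              _ = 1 := ENNReal.one_rpow _
      _ = _ := mul_one _
  calc (∑' i, s i * w i) ^ p ≤ ((∑' i, s i ^ p * w i) ^ (1 / p)) ^ p := by gcongr
    _ = _ := by rw [← ENNReal.rpow_mul, one_div_mul_cancel hp0.ne', ENNReal.rpow_one]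

/-- Minkowski's inequality in `ℓ^p`, with values in `[0, ∞]`. -/
theorem tsum_Lp_add_le {ι : Type*} (f g : ι → ℝ≥0∞) {p : ℝ} (hp : 1 ≤ p) :
    (∑' i, (f i + g i) ^ p) ^ (1 / p) ≤ (∑' i, f i ^ p) ^ (1 / p) + (∑' i, g i ^ p) ^ (1 / p) := by
  have hp0 : 0 < p := by linarith
  rw [one_div, ENNReal.rpow_inv_le_iff hp0, ENNReal.tsum_eq_iSup_sum]
  refine iSup_le fun F => ?_
  rw [← ENNReal.rpow_inv_le_iff hp0, ← one_div]
  refine (ENNReal.Lp_add_le F f g hp).trans ?_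
  gcongr
  · exact ENNReal.sum_le_tsum F
  · exact ENNReal.sum_le_tsum F

/-- AM-GM in `[0, ∞]`. -/
theorem two_mul_mul_le (a b : ℝ≥0∞) : 2 * (a * b) ≤ a ^ 2 + b ^ 2 := by
  rcases eq_or_ne a ∞ with rfl | ha
  · simp
  rcases eq_or_ne b ∞ with rfl | hb
  · simp
  lift a to NNReal using ha
  lift b to NNReal using hb
  norm_cast
  have : (2 : ℝ) * (a * b) ≤ a ^ 2 + b ^ 2 := by nlinarith [sq_nonneg ((a : ℝ) - b)]
  exact_mod_cast this

theorem tsum_mul_le_one {ι : Type*} (a b : ι → ℝ≥0∞) (ha : ∑' i, a i ^ 2 ≤ 1)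
    (hb : ∑' i, b i ^ 2 ≤ 1) : ∑' i, a i * b i ≤ 1 := by
  have h1 : 2 * ∑' i, a i * b i ≤ 2 * 1 := by
    rw [← ENNReal.tsum_mul_left]
    calc ∑' i, 2 * (a i * b i) ≤ ∑' i, (a i ^ 2 + b i ^ 2) :=
          ENNReal.tsum_le_tsum fun i => two_mul_mul_le _ _
      _ = ∑' i, a i ^ 2 + ∑' i, b i ^ 2 := ENNReal.tsum_add
      _ ≤ 1 + 1 := by gcongr
      _ = 2 * 1 := by norm_num
  exact (ENNReal.mul_le_mul_iff_right (by norm_num) (by norm_num)).1 h1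

/-! ### Bessel families -/

/-- A family satisfying Bessel's inequality. -/
def Bessel {κ : Type*} (x : κ → H) : Prop := ∀ v, ∑' k, ‖⟪x k, v⟫_ℂ‖ₑ ^ 2 ≤ ‖v‖ₑ ^ 2

omit [InnerProductSpace ℂ H] [CompleteSpace H] in
theorem enorm_sq_eq (v : H) : ‖v‖ₑ ^ 2 = ENNReal.ofReal (‖v‖ ^ 2) := by
  rw [ENNReal.ofReal_pow (norm_nonneg v), ofReal_norm]

omit [CompleteSpace H] in
theorem Bessel.of_orthonormal {κ : Type*} {x : κ → H} (hx : Orthonormal ℂ x) : Bessel x := by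
  intro v
  have h1 : ∑' k, ‖⟪x k, v⟫_ℂ‖ ^ 2 ≤ ‖v‖ ^ 2 := Orthonormal.tsum_inner_products_le v hx
  have h2 : Summable fun k => ‖⟪x k, v⟫_ℂ‖ ^ 2 := Orthonormal.inner_products_summable v hx
  rw [enorm_sq_eq]
  calc ∑' k, ‖⟪x k, v⟫_ℂ‖ₑ ^ 2 = ∑' k, ENNReal.ofReal (‖⟪x k, v⟫_ℂ‖ ^ 2) := by
        refine tsum_congr fun k => ?_
        rw [ENNReal.ofReal_pow (norm_nonneg _), ofReal_norm]
    _ = ENNReal.ofReal (∑' k, ‖⟪x k, v⟫_ℂ‖ ^ 2) :=
        (ENNReal.ofReal_tsum_of_nonneg (fun _ => by positivity) h2).symm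
    _ ≤ _ := ENNReal.ofReal_le_ofReal h1

omit [CompleteSpace H] in
theorem Bessel.enorm_le_one {κ : Type*} {x : κ → H} (hx : Bessel x) (k : κ) : ‖x k‖ₑ ≤ 1 := by
  have h1 := hx (x k)
  have h2 : ‖⟪x k, x k⟫_ℂ‖ₑ ^ 2 ≤ ‖x k‖ₑ ^ 2 := (ENNReal.le_tsum k).trans h1
  have h3 : ‖⟪x k, x k⟫_ℂ‖ₑ = ‖x k‖ₑ ^ 2 := by
    rw [← ofReal_norm, enorm_sq_eq, inner_self_eq_norm_sq_to_K]
    simp
  rw [h3] at h2
  have h4 : (‖x k‖ ^ 2) ^ 2 ≤ ‖x k‖ ^ 2 := by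
    rw [← ofReal_norm, ← ENNReal.ofReal_pow (norm_nonneg _),
      ← ENNReal.ofReal_pow (by positivity)] at h2
    exact (ENNReal.ofReal_le_ofReal_iff (by positivity)).1 h2
  rw [← ofReal_norm]
  rw [ENNReal.ofReal_le_one]
  by_contra hcon
  push Not at hcon
  nlinarith [sq_nonneg (‖x k‖ ^ 2 - 1), sq_nonneg (‖x k‖ - 1)]

theorem Bessel.map {κ : Type*} {x : κ → H} (hx : Bessel x) {B : H →L[ℂ] H} (hB : ‖B‖ ≤ 1) :
    Bessel fun k => B (x k) := by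
  intro v
  calc ∑' k, ‖⟪B (x k), v⟫_ℂ‖ₑ ^ 2 = ∑' k, ‖⟪x k, (star B) v⟫_ℂ‖ₑ ^ 2 := by
        refine tsum_congr fun k => ?_
        rw [ContinuousLinearMap.star_eq_adjoint, ContinuousLinearMap.adjoint_inner_right]
    _ ≤ ‖(star B) v‖ₑ ^ 2 := hx _
    _ ≤ ‖v‖ₑ ^ 2 := by
        rw [enorm_sq_eq, enorm_sq_eq]
        apply ENNReal.ofReal_le_ofReal
        gcongr
        calc ‖(star B) v‖ ≤ ‖star B‖ * ‖v‖ := (star B).le_opNorm v
          _ ≤ 1 * ‖v‖ := by rw [norm_star]; gcongr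
          _ = ‖v‖ := one_mul _

/-! ### The basic inequality -/

/-- The normalised images `c e_i / ‖c e_i‖` of a basis of eigenvectors of `c* c`
(zero if `c e_i = 0`). -/
noncomputable def leftVec {ι : Type*} (c : H →L[ℂ] H) (e : ι → H) (i : ι) : H :=
  ((‖c (e i)‖⁻¹ : ℝ) : ℂ) • c (e i)

theorem inner_map_eigenbasis {ι : Type*} {c : H →L[ℂ] H} {e : ι → H} (hon : Orthonormal ℂ e)
    (he : ∀ i, (star c * c) (e i) = ((‖c (e i)‖ ^ 2 : ℝ) : ℂ) • e i) {i j : ι} (hij : i ≠ j) :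
    ⟪c (e i), c (e j)⟫_ℂ = 0 := by
  have h1 : ⟪c (e i), c (e j)⟫_ℂ = ⟪e i, (star c * c) (e j)⟫_ℂ := by
    rw [mul_apply_eq_comp, ContinuousLinearMap.star_eq_adjoint,
      ContinuousLinearMap.adjoint_inner_right]
  rw [h1, he, inner_smul_right, hon.2 hij, mul_zero]

omit [CompleteSpace H] in
theorem smul_leftVec {ι : Type*} (c : H →L[ℂ] H) (e : ι → H) (i : ι) :
    ((‖c (e i)‖ : ℝ) : ℂ) • leftVec c e i = c (e i) := by
  rw [leftVec, smul_smul]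
  rcases eq_or_ne (c (e i)) 0 with h | h
  · simp [h]
  · have : ‖c (e i)‖ ≠ 0 := norm_ne_zero_iff.2 h
    rw [← Complex.ofReal_mul, mul_inv_cancel₀ this]
    simp

theorem orthonormal_leftVec {ι : Type*} {c : H →L[ℂ] H} {e : ι → H} (hon : Orthonormal ℂ e)
    (he : ∀ i, (star c * c) (e i) = ((‖c (e i)‖ ^ 2 : ℝ) : ℂ) • e i) :
    Orthonormal ℂ fun i : {i // c (e i) ≠ 0} => leftVec c e i := by
  constructor
  · rintro ⟨i, hi⟩
    have : ‖c (e i)‖ ≠ 0 := norm_ne_zero_iff.2 hi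
    simp only [leftVec, norm_smul, Complex.norm_real, norm_inv, norm_norm]
    exact inv_mul_cancel₀ this
  · rintro ⟨i, hi⟩ ⟨j, hj⟩ hij
    have hij' : i ≠ j := fun h => hij (Subtype.ext h)
    simp only [leftVec, inner_smul_left, inner_smul_right, inner_map_eigenbasis hon he hij',
      mul_zero]

theorem bessel_leftVec {ι : Type*} {c : H →L[ℂ] H} {e : ι → H} (hon : Orthonormal ℂ e)
    (he : ∀ i, (star c * c) (e i) = ((‖c (e i)‖ ^ 2 : ℝ) : ℂ) • e i) :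
    Bessel (leftVec c e) := by
  intro v
  have h1 := Bessel.of_orthonormal (orthonormal_leftVec hon he) v
  have h2 : ∑' k, ‖⟪leftVec c e k, v⟫_ℂ‖ₑ ^ 2
      = ∑' k : {i // c (e i) ≠ 0}, ‖⟪leftVec c e k, v⟫_ℂ‖ₑ ^ 2 := by
    symm
    apply tsum_subtype_eq_of_support_subset (f := fun k => ‖⟪leftVec c e k, v⟫_ℂ‖ₑ ^ 2)
      (s := {i | c (e i) ≠ 0})
    intro i hi
    by_contra hcon
    simp only [Set.mem_ofPred_eq, not_not] at hcon
    apply hi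
    simp [leftVec, hcon]
  rw [h2]
  exact h1

/-- For every compact `c` and all Bessel families `x`, `y`,
`∑ |⟨y_k, c x_k⟩|^p ≤ tr |c|^p` (`p ≥ 1`). -/
theorem tsum_enorm_inner_rpow_le (b : HilbertBasis ℕ ℂ H) {p : ℝ} (hp : 1 ≤ p)
    {c : H →L[ℂ] H} (hc : IsCompactOperator c) {κ : Type*} {x y : κ → H}
    (hx : Bessel x) (hy : Bessel y) :
    ∑' k, ‖⟪y k, c (x k)⟫_ℂ‖ₑ ^ p ≤ traceAbsPow b p c := by
  obtain ⟨ι, e, he⟩ := exists_singularBasis hc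
  have hon := e.orthonormal
  have hp0 : 0 < p := by linarith
  rw [traceAbsPow_eq_tsum b hp0 e he]
  set g := leftVec c e with hg
  have hgB : Bessel g := bessel_leftVec hon he
  have heB : Bessel e := Bessel.of_orthonormal hon
  -- the weights
  set w : ι → κ → ℝ≥0∞ := fun i k => ‖⟪x k, e i⟫_ℂ‖ₑ * ‖⟪y k, g i⟫_ℂ‖ₑ with hw
  have hsymm : ∀ a b : H, ‖⟪a, b⟫_ℂ‖ₑ = ‖⟪b, a⟫_ℂ‖ₑ := by
    intro a b
    rw [← ofReal_norm, ← ofReal_norm, norm_inner_symm]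
  have hwrow : ∀ i, ∑' k, w i k ≤ 1 := by
    intro i
    apply tsum_mul_le_one
    · exact (hx (e i)).trans (by
        calc ‖e i‖ₑ ^ 2 ≤ (1 : ℝ≥0∞) ^ 2 := by gcongr; exact heB.enorm_le_one i
          _ = 1 := one_pow 2)
    · exact (hy (g i)).trans (by
        calc ‖g i‖ₑ ^ 2 ≤ (1 : ℝ≥0∞) ^ 2 := by gcongr; exact hgB.enorm_le_one i
          _ = 1 := one_pow 2)
  have hwcol : ∀ k, ∑' i, w i k ≤ 1 := by
    intro k
    apply tsum_mul_le_one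
    · calc ∑' i, ‖⟪x k, e i⟫_ℂ‖ₑ ^ 2 = ∑' i, ‖⟪e i, x k⟫_ℂ‖ₑ ^ 2 := by simp_rw [hsymm (x k)]
        _ ≤ ‖x k‖ₑ ^ 2 := heB _
        _ ≤ (1 : ℝ≥0∞) ^ 2 := by gcongr; exact hx.enorm_le_one k
        _ = 1 := one_pow 2
    · calc ∑' i, ‖⟪y k, g i⟫_ℂ‖ₑ ^ 2 = ∑' i, ‖⟪g i, y k⟫_ℂ‖ₑ ^ 2 := by simp_rw [hsymm (y k)]
        _ ≤ ‖y k‖ₑ ^ 2 := hgB _
        _ ≤ (1 : ℝ≥0∞) ^ 2 := by gcongr; exact hy.enorm_le_one k
        _ = 1 := one_pow 2
  have hexp : ∀ k, ‖⟪y k, c (x k)⟫_ℂ‖ₑ ≤ ∑' i, ‖c (e i)‖ₑ * w i k := by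
    intro k
    have h1 := e.hasSum_repr (x k)
    have h2 := (h1.mapL c).mapL (innerSL ℂ (y k))
    rw [innerSL_apply_apply] at h2
    rw [← h2.tsum_eq]
    refine enorm_tsum_le_tsum_enorm.trans (ENNReal.tsum_le_tsum fun i => ?_)
    have h5 : ⟪y k, c (e i)⟫_ℂ = ((‖c (e i)‖ : ℝ) : ℂ) * ⟪y k, g i⟫_ℂ := by
      conv_lhs => rw [← smul_leftVec c e i]
      rw [inner_smul_right]
    have : ‖((‖c (e i)‖ : ℝ) : ℂ)‖ₑ = ‖c (e i)‖ₑ := by
      rw [← ofReal_norm, ← ofReal_norm, Complex.norm_real, norm_norm]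
    rw [map_smul, map_smul, innerSL_apply_apply, e.repr_apply_apply, h5, enorm_smul, enorm_mul,
      this, hsymm (e i)]
    exact le_of_eq (by ring)
  calc ∑' k, ‖⟪y k, c (x k)⟫_ℂ‖ₑ ^ p ≤ ∑' k, (∑' i, ‖c (e i)‖ₑ * w i k) ^ p :=
        ENNReal.tsum_le_tsum fun k => by
          gcongr
          exact hexp k
    _ ≤ ∑' k, ∑' i, ‖c (e i)‖ₑ ^ p * w i k :=
        ENNReal.tsum_le_tsum fun k => tsum_mul_rpow_le _ _ (hwcol k) hp
    _ = ∑' i, ‖c (e i)‖ₑ ^ p * ∑' k, w i k := by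
        rw [ENNReal.tsum_comm]
        simp_rw [ENNReal.tsum_mul_left]
    _ ≤ ∑' i, ‖c (e i)‖ₑ ^ p * 1 := ENNReal.tsum_le_tsum fun i => by
        gcongr
        exact hwrow i
    _ = ∑' i, ‖c (e i)‖ₑ ^ p := by simp

/-- The trace `tr |c|^p` is attained on orthonormal families. -/
theorem exists_orthonormal_traceAbsPow_eq (b : HilbertBasis ℕ ℂ H) {p : ℝ} (hp : 0 < p)
    {c : H →L[ℂ] H} (hc : IsCompactOperator c) :
    ∃ (κ : Type u) (x y : κ → H), Orthonormal ℂ x ∧ Orthonormal ℂ y ∧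
      traceAbsPow b p c = ∑' k, ‖⟪y k, c (x k)⟫_ℂ‖ₑ ^ p := by
  obtain ⟨ι, e, he⟩ := exists_singularBasis hc
  have hon := e.orthonormal
  refine ⟨{i // c (e i) ≠ 0}, fun i => e i, fun i => leftVec c e i,
    hon.comp _ Subtype.val_injective, orthonormal_leftVec hon he, ?_⟩
  rw [traceAbsPow_eq_tsum b hp e he]
  have h1 : ∀ i, ⟪leftVec c e i, c (e i)⟫_ℂ = ((‖c (e i)‖ : ℝ) : ℂ) := by
    intro i
    rw [leftVec, inner_smul_left, inner_self_eq_norm_sq_to_K, Complex.conj_ofReal]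
    rcases eq_or_ne (c (e i)) 0 with h | h
    · simp [h]
    · have : ‖c (e i)‖ ≠ 0 := norm_ne_zero_iff.2 h
      simp only [Complex.coe_algebraMap]
      rw [← Complex.ofReal_pow, ← Complex.ofReal_mul]
      congr 1
      field_simp
  have h2 : ∀ i, ‖⟪leftVec c e i, c (e i)⟫_ℂ‖ₑ ^ p = ‖c (e i)‖ₑ ^ p := by
    intro i
    rw [h1, ← ofReal_norm, ← ofReal_norm, Complex.norm_real, norm_norm]
  have h3 : ∑' k : {i // c (e i) ≠ 0}, ‖⟪leftVec c e k, c (e k)⟫_ℂ‖ₑ ^ p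
      = ∑' k : {i // c (e i) ≠ 0}, ‖c (e k)‖ₑ ^ p := tsum_congr fun k => h2 _
  rw [h3]
  symm
  apply tsum_subtype_eq_of_support_subset (f := fun k => ‖c (e k)‖ₑ ^ p)
      (s := {i | c (e i) ≠ 0})
  intro i hi
  by_contra hcon
  simp only [Set.mem_ofPred_eq, not_not] at hcon
  apply hi
  simp [hcon, hp]

end Pool.Agent.Helper55.SvN
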