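import Mathlib
import Pool.Agent.Helper55_Schatten.Ineq

open scoped InnerProductSpace ENNReal

namespace Pool.Agent.Helper55.SvN

universe u

variable {H : Type u} [NormedAddCommGroup H] [InnerProductSpace ℂ H] [CompleteSpace H]

/-- `c` belongs to the Schatten-von Neumann class `𝔖_p`: `c` is compact and
`tr (c* c)^{p/2} < ∞`. -/
def MemSchatten (b : HilbertBasis ℕ ℂ H) (p : ℝ) (c : H →L[ℂ] H) : Prop :=
  IsCompactOperator c ∧ traceAbsPow b p c ≠ ∞

/-- The Schatten norm `(tr (c* c)^{p/2})^{1/p}`. -/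
noncomputable def schattenNorm (b : HilbertBasis ℕ ℂ H) (p : ℝ) (c : H →L[ℂ] H) : ℝ :=
  (traceAbsPow b p c).toReal ^ (1 / p)

theorem schattenNorm_nonneg (b : HilbertBasis ℕ ℂ H) (p : ℝ) (c : H →L[ℂ] H) :
    0 ≤ schattenNorm b p c := Real.rpow_nonneg ENNReal.toReal_nonneg _

/-! ### Properties of `tr |c|^p` -/

theorem traceAbsPow_zero (b : HilbertBasis ℕ ℂ H) {p : ℝ} (hp : 0 < p) :
    traceAbsPow b p (0 : H →L[ℂ] H) = 0 := by
  rw [traceAbsPow_eq_tsum b hp b (by simp)]
  simp [hp]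

theorem traceAbsPow_smul (b : HilbertBasis ℕ ℂ H) {p : ℝ} (hp : 0 < p) (t : ℂ) {c : H →L[ℂ] H}
    (hc : IsCompactOperator c) : traceAbsPow b p (t • c) = ‖t‖ₑ ^ p * traceAbsPow b p c := by
  obtain ⟨ι, e, he⟩ := exists_singularBasis hc
  rw [traceAbsPow_eq_tsum b hp e he, traceAbsPow_eq_tsum b hp e, ← ENNReal.tsum_mul_left]
  · refine tsum_congr fun i => ?_
    rw [smul_apply, enorm_smul, ENNReal.mul_rpow_of_nonneg _ _ hp.le]
  · intro i
    have h1 : (star (t • c) * (t • c)) = (star t * t) • (star c * c) := by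
      rw [star_smul, smul_mul_smul_comm]
    rw [h1, smul_apply, he, smul_smul]
    congr 1
    rw [smul_apply, norm_smul, mul_pow, Complex.ofReal_mul]
    congr 1
    rw [← Complex.normSq_eq_norm_sq, ← Complex.mul_conj, mul_comm]
    rfl

theorem traceAbsPow_add_le (b : HilbertBasis ℕ ℂ H) {p : ℝ} (hp : 1 ≤ p) {c d : H →L[ℂ] H}
    (hc : IsCompactOperator c) (hd : IsCompactOperator d) :
    traceAbsPow b p (c + d) ^ (1 / p) ≤ traceAbsPow b p c ^ (1 / p) + traceAbsPow b p d ^ (1 / p) := by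
  have hp0 : 0 < p := by linarith
  have hcd : IsCompactOperator (c + d) := hc.add hd
  obtain ⟨κ, x, y, hx, hy, h⟩ := exists_orthonormal_traceAbsPow_eq b hp0 hcd
  rw [h]
  have hxB := Bessel.of_orthonormal hx
  have hyB := Bessel.of_orthonormal hy
  calc (∑' k, ‖⟪y k, (c + d) (x k)⟫_ℂ‖ₑ ^ p) ^ (1 / p)
      ≤ (∑' k, (‖⟪y k, c (x k)⟫_ℂ‖ₑ + ‖⟪y k, d (x k)⟫_ℂ‖ₑ) ^ p) ^ (1 / p) := by
        gcongr with k
        rw [add_apply, inner_add_right]
        exact enorm_add_le _ _
    _ ≤ (∑' k, ‖⟪y k, c (x k)⟫_ℂ‖ₑ ^ p) ^ (1 / p) + (∑' k, ‖⟪y k, d (x k)⟫_ℂ‖ₑ ^ p) ^ (1 / p) :=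
        tsum_Lp_add_le _ _ hp
    _ ≤ _ := by
        gcongr
        · exact tsum_enorm_inner_rpow_le b hp hc hxB hyB
        · exact tsum_enorm_inner_rpow_le b hp hd hxB hyB

theorem traceAbsPow_mul_mul_le (b : HilbertBasis ℕ ℂ H) {p : ℝ} (hp : 1 ≤ p) {c : H →L[ℂ] H}
    (hc : IsCompactOperator c) {A B : H →L[ℂ] H} (hA : ‖A‖ ≤ 1) (hB : ‖B‖ ≤ 1) :
    traceAbsPow b p (A * c * B) ≤ traceAbsPow b p c := by
  have hp0 : 0 < p := by linarith
  have hcc : IsCompactOperator (A * c * B) := (hc.clm_comp A).comp_clm B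
  obtain ⟨κ, x, y, hx, hy, h⟩ := exists_orthonormal_traceAbsPow_eq b hp0 hcc
  rw [h]
  have hxB := (Bessel.of_orthonormal hx).map hB
  have hyB := (Bessel.of_orthonormal hy).map (B := star A) (by rwa [norm_star])
  refine le_trans (le_of_eq ?_) (tsum_enorm_inner_rpow_le b hp hc hxB hyB)
  refine tsum_congr fun k => ?_
  rw [ContinuousLinearMap.star_eq_adjoint, ContinuousLinearMap.adjoint_inner_left]
  rfl

theorem enorm_inner_rpow_le (b : HilbertBasis ℕ ℂ H) {p : ℝ} (hp : 1 ≤ p) {c : H →L[ℂ] H}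
    (hc : IsCompactOperator c) {x y : H} (hx : ‖x‖ = 1) (hy : ‖y‖ = 1) :
    ‖⟪y, c x⟫_ℂ‖ₑ ^ p ≤ traceAbsPow b p c := by
  have h1 : Orthonormal ℂ (fun _ : Unit => x) := ⟨fun _ => hx, fun i j hij => by simp at hij⟩
  have h2 : Orthonormal ℂ (fun _ : Unit => y) := ⟨fun _ => hy, fun i j hij => by simp at hij⟩
  have := tsum_enorm_inner_rpow_le b hp hc (Bessel.of_orthonormal h1) (Bessel.of_orthonormal h2)
  simpa using this

theorem enorm_le_traceAbsPow (b : HilbertBasis ℕ ℂ H) {p : ℝ} (hp : 1 ≤ p) {c : H →L[ℂ] H}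
    (hc : IsCompactOperator c) : ‖c‖ₑ ≤ traceAbsPow b p c ^ (1 / p) := by
  have hp0 : 0 < p := by linarith
  rcases eq_or_ne (traceAbsPow b p c) ∞ with h | h
  · rw [h, ENNReal.top_rpow_of_pos (by positivity)]; exact le_top
  set M := (traceAbsPow b p c).toReal ^ (1 / p) with hM
  have hM0 : 0 ≤ M := by positivity
  have hMe : traceAbsPow b p c ^ (1 / p) = ENNReal.ofReal M := by
    rw [hM, ← ENNReal.ofReal_rpow_of_nonneg ENNReal.toReal_nonneg (by positivity),
      ENNReal.ofReal_toReal h]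
  rw [hMe, ← ofReal_norm]
  apply ENNReal.ofReal_le_ofReal
  refine c.opNorm_le_of_re_inner_le hM0 fun x y hx hy => ?_
  have h1 := enorm_inner_rpow_le b hp hc hx hy
  have h2 : ‖⟪y, c x⟫_ℂ‖ ^ p ≤ (traceAbsPow b p c).toReal := by
    rw [← ENNReal.ofReal_le_iff_le_toReal h, ← ENNReal.ofReal_rpow_of_nonneg (norm_nonneg _) hp0.le,
      ofReal_norm]
    exact h1
  have h3 : ‖⟪y, c x⟫_ℂ‖ ≤ M := by
    rw [hM, one_div, Real.le_rpow_inv_iff_of_pos (norm_nonneg _) ENNReal.toReal_nonneg hp0]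
    exact h2
  calc RCLike.re ⟪c x, y⟫_ℂ ≤ ‖⟪c x, y⟫_ℂ‖ := RCLike.re_le_norm _
    _ = ‖⟪y, c x⟫_ℂ‖ := norm_inner_symm _ _
    _ ≤ M := h3

theorem memSchatten_zero (b : HilbertBasis ℕ ℂ H) {p : ℝ} (hp : 1 ≤ p) :
    MemSchatten b p (0 : H →L[ℂ] H) :=
  ⟨isCompactOperator_zero, by rw [traceAbsPow_zero b (by linarith)]; simp⟩

theorem MemSchatten.add {b : HilbertBasis ℕ ℂ H} {p : ℝ} (hp : 1 ≤ p) {c d : H →L[ℂ] H}
    (hc : MemSchatten b p c) (hd : MemSchatten b p d) : MemSchatten b p (c + d) := by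
  obtain ⟨hc, hc'⟩ := hc
  obtain ⟨hd, hd'⟩ := hd
  refine ⟨hc.add hd, ?_⟩
  have hp0 : 0 < p := by linarith
  have h1 := traceAbsPow_add_le b hp hc hd
  have h2 : traceAbsPow b p c ^ (1 / p) + traceAbsPow b p d ^ (1 / p) ≠ ∞ := by
    rw [ENNReal.add_ne_top]
    exact ⟨ENNReal.rpow_ne_top_of_nonneg (by positivity) hc',
      ENNReal.rpow_ne_top_of_nonneg (by positivity) hd'⟩
  have h3 := ne_top_of_le_ne_top h2 h1
  intro h4
  rw [h4, ENNReal.top_rpow_of_pos (by positivity)] at h3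
  exact h3 rfl

theorem MemSchatten.smul {b : HilbertBasis ℕ ℂ H} {p : ℝ} (hp : 1 ≤ p) (t : ℂ) {c : H →L[ℂ] H}
    (hc : MemSchatten b p c) : MemSchatten b p (t • c) := by
  obtain ⟨hc, hc'⟩ := hc
  have hp0 : 0 < p := by linarith
  refine ⟨hc.smul t, ?_⟩
  rw [traceAbsPow_smul b hp0 t hc]
  exact ENNReal.mul_ne_top (ENNReal.rpow_ne_top_of_nonneg hp0.le enorm_ne_top) hc'

/-- The Schatten-von Neumann class `𝔖_p`: its elements are the operators `op` in the class
`MemSchatten b p`. -/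
structure Schatten (b : HilbertBasis ℕ ℂ H) (p : ℝ) : Type u where
  /-- The operator on `H` underlying an element of `𝔖_p`. -/
  op : H →L[ℂ] H
  /-- It belongs to the class. -/
  mem : MemSchatten b p op

namespace Schatten

theorem op_injective {b : HilbertBasis ℕ ℂ H} {p : ℝ} :
    Function.Injective (op : Schatten b p → _) := by
  rintro ⟨c, hc⟩ ⟨d, hd⟩ (h : c = d)
  subst h
  rfl

variable {b : HilbertBasis ℕ ℂ H} {p : ℝ} [hp : Fact (1 ≤ p)]

theorem add_mem (x y : Schatten b p) : MemSchatten b p (x.op + y.op) := x.mem.add hp.out y.mem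

theorem smul_mem (t : ℂ) (x : Schatten b p) : MemSchatten b p (t • x.op) := x.mem.smul hp.out t

theorem neg_mem (x : Schatten b p) : MemSchatten b p (-x.op) := by
  rw [← neg_one_smul ℂ]; exact x.smul_mem (-1)

theorem sub_mem (x y : Schatten b p) : MemSchatten b p (x.op - y.op) := by
  rw [sub_eq_add_neg]; exact x.mem.add hp.out y.neg_mem

theorem nsmul_mem (n : ℕ) (x : Schatten b p) : MemSchatten b p (n • x.op) := by
  rw [← Nat.cast_smul_eq_nsmul ℂ]; exact x.smul_mem _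

theorem zsmul_mem (n : ℤ) (x : Schatten b p) : MemSchatten b p (n • x.op) := by
  rw [← Int.cast_smul_eq_zsmul ℂ]; exact x.smul_mem _

instance : Zero (Schatten b p) := ⟨⟨0, memSchatten_zero b hp.out⟩⟩
instance : Add (Schatten b p) := ⟨fun x y => ⟨x.op + y.op, x.add_mem y⟩⟩
instance : Neg (Schatten b p) := ⟨fun x => ⟨-x.op, x.neg_mem⟩⟩
instance : Sub (Schatten b p) := ⟨fun x y => ⟨x.op - y.op, x.sub_mem y⟩⟩
instance : SMul ℂ (Schatten b p) := ⟨fun t x => ⟨t • x.op, x.smul_mem t⟩⟩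
instance : SMul ℕ (Schatten b p) := ⟨fun n x => ⟨n • x.op, x.nsmul_mem n⟩⟩
instance : SMul ℤ (Schatten b p) := ⟨fun n x => ⟨n • x.op, x.zsmul_mem n⟩⟩

@[simp] theorem op_zero : (0 : Schatten b p).op = 0 := rfl
@[simp] theorem op_add (x y : Schatten b p) : (x + y).op = x.op + y.op := rfl
@[simp] theorem op_neg (x : Schatten b p) : (-x).op = -x.op := rfl
@[simp] theorem op_sub (x y : Schatten b p) : (x - y).op = x.op - y.op := rfl
@[simp] theorem op_smul (t : ℂ) (x : Schatten b p) : (t • x).op = t • x.op := rfl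
theorem op_nsmul (x : Schatten b p) (n : ℕ) : (n • x).op = n • x.op := rfl
theorem op_zsmul (x : Schatten b p) (n : ℤ) : (n • x).op = n • x.op := rfl

instance : AddCommGroup (Schatten b p) :=
  op_injective.addCommGroup op op_zero op_add op_neg op_sub op_nsmul op_zsmul

/-- `op` as an additive map. -/
def opHom : Schatten b p →+ (H →L[ℂ] H) := ⟨⟨op, op_zero⟩, op_add⟩

instance : Module ℂ (Schatten b p) := Function.Injective.module ℂ opHom op_injective op_smul

omit hp in
theorem memSchatten (x : Schatten b p) : MemSchatten b p x.op := x.mem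

omit hp in
theorem op_mk (c : H →L[ℂ] H) (hc : MemSchatten b p c) : (mk c hc : Schatten b p).op = c :=
  rfl

omit hp in
theorem isCompact_op (x : Schatten b p) : IsCompactOperator x.op := x.memSchatten.1

omit hp in
theorem traceAbsPow_ne_top (x : Schatten b p) : traceAbsPow b p x.op ≠ ∞ := x.memSchatten.2

noncomputable instance : Norm (Schatten b p) := ⟨fun x => schattenNorm b p x.op⟩

omit hp in
theorem norm_def (x : Schatten b p) : ‖x‖ = schattenNorm b p x.op := rfl

theorem ofReal_schattenNorm (x : Schatten b p) :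
    ENNReal.ofReal (schattenNorm b p x.op) = traceAbsPow b p x.op ^ (1 / p) := by
  have hp0 : 0 < p := by linarith [hp.out]
  rw [schattenNorm, ← ENNReal.ofReal_rpow_of_nonneg ENNReal.toReal_nonneg (by positivity),
    ENNReal.ofReal_toReal x.traceAbsPow_ne_top]

/-- The Schatten norm is a norm. -/
theorem normCore : NormedSpace.Core ℂ (Schatten b p) where
  norm_nonneg x := Real.rpow_nonneg ENNReal.toReal_nonneg _
  norm_smul t x := by
    have hp0 : 0 < p := by linarith [hp.out]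
    simp only [norm_def, schattenNorm, op_smul, traceAbsPow_smul b hp0 t x.isCompact_op,
      ENNReal.toReal_mul]
    rw [Real.mul_rpow ENNReal.toReal_nonneg ENNReal.toReal_nonneg, ← ENNReal.toReal_rpow,
      ← Real.rpow_mul ENNReal.toReal_nonneg, mul_one_div_cancel hp0.ne', Real.rpow_one,
      toReal_enorm]
  norm_triangle x y := by
    have h := traceAbsPow_add_le b hp.out x.isCompact_op y.isCompact_op
    rw [← op_add, ← ofReal_schattenNorm, ← ofReal_schattenNorm, ← ofReal_schattenNorm,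
      ← ENNReal.ofReal_add (schattenNorm_nonneg _ _ _) (schattenNorm_nonneg _ _ _)] at h
    exact (ENNReal.ofReal_le_ofReal_iff
      (add_nonneg (schattenNorm_nonneg _ _ _) (schattenNorm_nonneg _ _ _))).1 h
  norm_eq_zero_iff x := by
    have hp0 : 0 < p := by linarith [hp.out]
    constructor
    · intro h
      have h1 := enorm_le_traceAbsPow b hp.out x.isCompact_op
      rw [← ofReal_schattenNorm, ← norm_def, h] at h1
      apply op_injective
      simpa using h1
    · rintro rfl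
      simp [norm_def, schattenNorm, traceAbsPow_zero b hp0, hp0.ne']

noncomputable instance : NormedAddCommGroup (Schatten b p) :=
  NormedAddCommGroup.ofCore normCore

noncomputable instance : NormedSpace ℂ (Schatten b p) :=
  NormedSpace.ofCore normCore

end Schatten

end Pool.Agent.Helper55.SvN
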