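import Mathlib
import Pool.Agent.Helper55_Schatten.Space

open scoped InnerProductSpace ENNReal
open InnerProductSpace (rankOne)

namespace Pool.Agent.Helper55.SvN

universe u

variable {H : Type u} [NormedAddCommGroup H] [InnerProductSpace ℂ H] [CompleteSpace H]

theorem traceAbsPow_mul_mul_le' (b : HilbertBasis ℕ ℂ H) {p : ℝ} (hp : 1 ≤ p) {c : H →L[ℂ] H}
    (hc : IsCompactOperator c) (A B : H →L[ℂ] H) :
    traceAbsPow b p (A * c * B) ≤ (‖A‖ₑ * ‖B‖ₑ) ^ p * traceAbsPow b p c := by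
  have hp0 : 0 < p := by linarith
  rcases eq_or_ne A 0 with rfl | hA
  · simp [traceAbsPow_zero b hp0]
  rcases eq_or_ne B 0 with rfl | hB
  · simp [traceAbsPow_zero b hp0]
  have hA' : ‖A‖ ≠ 0 := norm_ne_zero_iff.2 hA
  have hB' : ‖B‖ ≠ 0 := norm_ne_zero_iff.2 hB
  set A' : H →L[ℂ] H := ((‖A‖⁻¹ : ℝ) : ℂ) • A with hA'def
  set B' : H →L[ℂ] H := ((‖B‖⁻¹ : ℝ) : ℂ) • B with hB'def
  have hA'n : ‖A'‖ ≤ 1 := by
    rw [hA'def, norm_smul, Complex.norm_real, norm_inv, norm_norm, inv_mul_cancel₀ hA']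
  have hB'n : ‖B'‖ ≤ 1 := by
    rw [hB'def, norm_smul, Complex.norm_real, norm_inv, norm_norm, inv_mul_cancel₀ hB']
  have hAe : A = ((‖A‖ : ℝ) : ℂ) • A' := by
    rw [hA'def, smul_smul, ← Complex.ofReal_mul, mul_inv_cancel₀ hA', Complex.ofReal_one, one_smul]
  have hBe : B = ((‖B‖ : ℝ) : ℂ) • B' := by
    rw [hB'def, smul_smul, ← Complex.ofReal_mul, mul_inv_cancel₀ hB', Complex.ofReal_one, one_smul]
  have h1 : A * c * B = (((‖A‖ * ‖B‖ : ℝ)) : ℂ) • (A' * c * B') := by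
    conv_lhs => rw [hAe, hBe]
    rw [smul_mul_assoc, smul_mul_assoc, mul_smul_comm, smul_smul, Complex.ofReal_mul]
  have hcc : IsCompactOperator (A' * c * B') := (hc.clm_comp A').comp_clm B'
  rw [h1, traceAbsPow_smul b hp0 _ hcc]
  have h2 : ‖(((‖A‖ * ‖B‖ : ℝ)) : ℂ)‖ₑ = ‖A‖ₑ * ‖B‖ₑ := by
    rw [← ofReal_norm, Complex.norm_real, norm_mul, norm_norm, norm_norm,
      ENNReal.ofReal_mul (norm_nonneg _), ofReal_norm, ofReal_norm]
  rw [h2]
  gcongr
  exact traceAbsPow_mul_mul_le b hp hc hA'n hB'n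

namespace Schatten

variable {b : HilbertBasis ℕ ℂ H} {p : ℝ} [hp : Fact (1 ≤ p)]

theorem zero_lt_p : 0 < p := by linarith [hp.out]

theorem memSchatten_mul_mul (A B : H →L[ℂ] H) (x : Schatten b p) :
    MemSchatten b p (A * x.op * B) := by
  refine ⟨(x.isCompact_op.clm_comp A).comp_clm B, ?_⟩
  refine ne_top_of_le_ne_top ?_ (traceAbsPow_mul_mul_le' b hp.out x.isCompact_op A B)
  exact ENNReal.mul_ne_top (ENNReal.rpow_ne_top_of_nonneg zero_lt_p.le
    (ENNReal.mul_ne_top enorm_ne_top enorm_ne_top)) x.traceAbsPow_ne_top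

/-- The map `x ↦ A x B` on `𝔖_p`. -/
noncomputable def sandwich (A B : H →L[ℂ] H) : Schatten b p →ₗ[ℂ] Schatten b p where
  toFun x := mk (A * x.op * B) (memSchatten_mul_mul A B x)
  map_add' x y := op_injective (by simp [mul_add, add_mul])
  map_smul' t x := op_injective (by simp)

@[simp] theorem op_sandwich (A B : H →L[ℂ] H) (x : Schatten b p) :
    (sandwich A B x).op = A * x.op * B := rfl

theorem norm_rpow (x : Schatten b p) : ‖x‖ ^ p = (traceAbsPow b p x.op).toReal := by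
  rw [norm_def, schattenNorm, ← Real.rpow_mul ENNReal.toReal_nonneg,
    one_div_mul_cancel (zero_lt_p (p := p)).ne', Real.rpow_one]

theorem ofReal_norm_rpow (x : Schatten b p) :
    ENNReal.ofReal (‖x‖ ^ p) = traceAbsPow b p x.op := by
  rw [norm_rpow, ENNReal.ofReal_toReal x.traceAbsPow_ne_top]

theorem norm_sandwich_le (A B : H →L[ℂ] H) (x : Schatten b p) :
    ‖sandwich A B x‖ ≤ ‖A‖ * ‖B‖ * ‖x‖ := by
  have hp0 : 0 < p := zero_lt_p
  have h := traceAbsPow_mul_mul_le' b hp.out x.isCompact_op A B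
  rw [← op_sandwich, ← ofReal_norm_rpow, ← ofReal_norm_rpow, ← ofReal_norm, ← ofReal_norm,
    ← ENNReal.ofReal_mul (norm_nonneg _),
    ENNReal.ofReal_rpow_of_nonneg (by positivity) hp0.le, ← ENNReal.ofReal_mul (by positivity),
    ENNReal.ofReal_le_ofReal_iff (by positivity), ← Real.mul_rpow (by positivity) (norm_nonneg _),
    Real.rpow_le_rpow_iff (norm_nonneg _) (by positivity) hp0] at h
  exact h

theorem norm_op_le (x : Schatten b p) : ‖x.op‖ ≤ ‖x‖ := by
  have h := enorm_le_traceAbsPow b hp.out x.isCompact_op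
  rw [← ofReal_schattenNorm, ← ofReal_norm, ← norm_def,
    ENNReal.ofReal_le_ofReal_iff (norm_nonneg _)] at h
  exact h

/-- The basic inequality in real numbers. -/
theorem tsum_ofReal_inner_rpow_le (x : Schatten b p) {κ : Type*} {u v : κ → H}
    (hu : Bessel u) (hv : Bessel v) :
    ∑' k, ‖⟪v k, x.op (u k)⟫_ℂ‖ₑ ^ p ≤ ENNReal.ofReal (‖x‖ ^ p) := by
  rw [ofReal_norm_rpow]
  exact tsum_enorm_inner_rpow_le b hp.out x.isCompact_op hu hv

omit [CompleteSpace H] in
theorem isCompactOperator_rankOne (x y : H) : IsCompactOperator (rankOne ℂ x y) := by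
  rw [InnerProductSpace.rankOne_def']
  have h : IsCompactOperator (innerSL ℂ y : H →L[ℂ] ℂ) :=
    isCompactOperator_of_locallyCompactSpace_dom (innerSL ℂ y : H →L[ℂ] ℂ)
  exact h.clm_comp (ContinuousLinearMap.toSpanSingleton ℂ x)

omit [CompleteSpace H] in
theorem ext_basis {ι : Type*} (e : HilbertBasis ι ℂ H) {x y : H}
    (h : ∀ j, ⟪e j, x⟫_ℂ = ⟪e j, y⟫_ℂ) : x = y := by
  apply e.repr.injective
  ext j
  rw [e.repr_apply_apply, e.repr_apply_apply, h]

/-- `tr |c|^p` for a diagonal operator. -/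
theorem traceAbsPow_diagonal {c : H →L[ℂ] H} {a : ℕ → ℂ} (h : ∀ i, c (b i) = a i • b i) :
    traceAbsPow b p c = ∑' i, ‖a i‖ₑ ^ p := by
  have hp0 : 0 < p := zero_lt_p
  have hn : ∀ i, ‖b i‖ = 1 := b.orthonormal.1
  rw [traceAbsPow_eq_tsum b hp0 b]
  · refine tsum_congr fun i => ?_
    rw [h, enorm_smul, ← ofReal_norm (b i), hn]
    simp
  · intro i
    apply ext_basis b
    intro j
    rw [mul_apply_eq_comp, ContinuousLinearMap.star_eq_adjoint,
      ContinuousLinearMap.adjoint_inner_right, h, h, inner_smul_left, inner_smul_right,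
      inner_smul_right, norm_smul, hn, mul_one]
    rcases eq_or_ne j i with rfl | hij
    · rw [← mul_assoc, ← Complex.normSq_eq_norm_sq, ← Complex.mul_conj, mul_comm (a j)]
    · rw [b.orthonormal.2 hij]
      simp

theorem memSchatten_diag (i j : ℕ) (hij : i ≠ j) (z w : ℂ) :
    MemSchatten b p (z • rankOne ℂ (b i) (b i) + w • rankOne ℂ (b j) (b j)) ∧
    traceAbsPow b p (z • rankOne ℂ (b i) (b i) + w • rankOne ℂ (b j) (b j))
      = ‖z‖ₑ ^ p + ‖w‖ₑ ^ p := by
  have hp0 : 0 < p := zero_lt_p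
  have h0 : ∀ k l, ⟪b k, b l⟫_ℂ = if k = l then 1 else 0 :=
    orthonormal_iff_ite.1 b.orthonormal
  have h1 : ∀ k, (z • rankOne ℂ (b i) (b i) + w • rankOne ℂ (b j) (b j)) (b k)
      = (if k = i then z else if k = j then w else 0) • b k := by
    intro k
    simp only [add_apply, smul_apply, InnerProductSpace.rankOne_apply, h0]
    rcases eq_or_ne k i with rfl | hki
    · simp [hij.symm]
    · rcases eq_or_ne k j with rfl | hkj
      · simp [hki, hki.symm]
      · simp [hki, hkj, hki.symm, hkj.symm]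
  have h2 := traceAbsPow_diagonal (p := p) h1
  have h3 : ∑' k, ‖(if k = i then z else if k = j then w else 0 : ℂ)‖ₑ ^ p
      = ‖z‖ₑ ^ p + ‖w‖ₑ ^ p := by
    rw [tsum_eq_sum (s := {i, j})]
    · rw [Finset.sum_pair hij]
      simp [hij.symm]
    · intro k hk
      simp only [Finset.mem_insert, Finset.mem_singleton, not_or] at hk
      simp [hk.1, hk.2, hp0]
  rw [h3] at h2
  refine ⟨⟨((isCompactOperator_rankOne _ _).smul z).add ((isCompactOperator_rankOne _ _).smul w),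
    ?_⟩, h2⟩
  rw [h2]
  exact ENNReal.add_ne_top.2 ⟨ENNReal.rpow_ne_top_of_nonneg hp0.le enorm_ne_top,
    ENNReal.rpow_ne_top_of_nonneg hp0.le enorm_ne_top⟩

theorem memSchatten_rankOne (x y : H) : MemSchatten b p (rankOne ℂ x y) := by
  have h := (memSchatten_diag (b := b) (p := p) 0 1 zero_ne_one 1 0).1
  have h1 := memSchatten_mul_mul (rankOne ℂ x (b 0)) (rankOne ℂ (b 0) y) (mk _ h)
  have hn : ‖b 0‖ = 1 := b.orthonormal.1 0
  have h2 : rankOne ℂ x (b 0) * (mk _ h : Schatten b p).op * rankOne ℂ (b 0) y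
      = rankOne ℂ x y := by
    ext v
    simp [mul_apply_eq_comp, hn]
  rwa [h2] at h1

/-- The rank-one operator `v ↦ ⟨y, v⟩ x`, as an element of `𝔖_p`. -/
noncomputable def rk (x y : H) : Schatten b p := mk (rankOne ℂ x y) (memSchatten_rankOne x y)

@[simp] theorem op_rk (x y : H) : (rk x y : Schatten b p).op = rankOne ℂ x y := rfl

theorem norm_rk_le (x y : H) : ‖(rk x y : Schatten b p)‖ ≤ ‖x‖ * ‖y‖ := by
  have hp0 : 0 < p := zero_lt_p
  have hn' : ∀ i, ‖b i‖ = 1 := b.orthonormal.1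
  obtain ⟨h, h'⟩ := (memSchatten_diag (b := b) (p := p) 0 1 zero_ne_one 1 0)
  have h2 : (rk x y : Schatten b p) = sandwich (rankOne ℂ x (b 0)) (rankOne ℂ (b 0) y)
      (mk _ h) := by
    apply op_injective
    ext v
    simp [mul_apply_eq_comp, hn']
  have h3 : ‖(mk _ h : Schatten b p)‖ = 1 := by
    have : ‖(mk _ h : Schatten b p)‖ ^ p = 1 := by
      rw [norm_rpow, op_mk, h']
      simp [hp0]
    have h4 : (‖(mk _ h : Schatten b p)‖ ^ p) ^ (1 / p) = 1 := by rw [this, Real.one_rpow]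
    rwa [← Real.rpow_mul (norm_nonneg _), mul_one_div_cancel hp0.ne', Real.rpow_one] at h4
  rw [h2]
  refine (norm_sandwich_le _ _ _).trans ?_
  rw [h3, InnerProductSpace.norm_rankOne, InnerProductSpace.norm_rankOne, hn']
  simp

theorem norm_diag (i j : ℕ) (hij : i ≠ j) (z w : ℂ) :
    ‖(z • rk (b i) (b i) + w • rk (b j) (b j) : Schatten b p)‖ ^ p = ‖z‖ ^ p + ‖w‖ ^ p := by
  have hp0 : 0 < p := zero_lt_p
  rw [norm_rpow]
  have := (memSchatten_diag (b := b) (p := p) i j hij z w).2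
  rw [op_add, op_smul, op_smul, op_rk, op_rk, this, ENNReal.toReal_add, ← ENNReal.toReal_rpow,
    ← ENNReal.toReal_rpow, toReal_enorm, toReal_enorm]
  · exact ENNReal.rpow_ne_top_of_nonneg hp0.le enorm_ne_top
  · exact ENNReal.rpow_ne_top_of_nonneg hp0.le enorm_ne_top

end Schatten

end Pool.Agent.Helper55.SvN
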