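import Mathlib
import Pool.Agent.Helper55_Schatten.Ops

open scoped InnerProductSpace ENNReal
open InnerProductSpace (rankOne)

namespace Pool.Agent.Helper55.SvN

universe u

variable {H : Type u} [NormedAddCommGroup H] [InnerProductSpace ℂ H] [CompleteSpace H]

/-- The orthogonal projection onto the span of the first two basis vectors. -/
noncomputable def Q (b : HilbertBasis ℕ ℂ H) : H →L[ℂ] H :=
  rankOne ℂ (b 0) (b 0) + rankOne ℂ (b 1) (b 1)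

/-- The complementary projection. -/
noncomputable def R (b : HilbertBasis ℕ ℂ H) : H →L[ℂ] H := 1 - Q b

section proj

variable (b : HilbertBasis ℕ ℂ H)

omit [CompleteSpace H] in
theorem Q_apply (v : H) : Q b v = ⟪b 0, v⟫_ℂ • b 0 + ⟪b 1, v⟫_ℂ • b 1 := by
  simp [Q]

omit [CompleteSpace H] in
theorem R_apply (v : H) : R b v = v - Q b v := by
  simp [R]

omit [CompleteSpace H] in
theorem inner_basis (k l : ℕ) : ⟪b k, b l⟫_ℂ = if k = l then 1 else 0 :=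
  orthonormal_iff_ite.1 b.orthonormal k l

omit [CompleteSpace H] in
theorem inner_R_zero (v : H) : ⟪b 0, R b v⟫_ℂ = 0 := by
  rw [R_apply, Q_apply, inner_sub_right, inner_add_right, inner_smul_right, inner_smul_right,
    inner_basis, inner_basis]
  simp

omit [CompleteSpace H] in
theorem inner_R_one (v : H) : ⟪b 1, R b v⟫_ℂ = 0 := by
  rw [R_apply, Q_apply, inner_sub_right, inner_add_right, inner_smul_right, inner_smul_right,
    inner_basis, inner_basis]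
  simp

omit [CompleteSpace H] in
theorem inner_Q_left (v w : H) : ⟪Q b v, w⟫_ℂ = ⟪v, Q b w⟫_ℂ := by
  rw [Q_apply, Q_apply, inner_add_left, inner_add_right, inner_smul_left, inner_smul_left,
    inner_smul_right, inner_smul_right, inner_conj_symm, inner_conj_symm]
  ring

omit [CompleteSpace H] in
theorem inner_R_left (v w : H) : ⟪R b v, w⟫_ℂ = ⟪v, R b w⟫_ℂ := by
  rw [R_apply, R_apply, inner_sub_left, inner_sub_right, inner_Q_left]

omit [CompleteSpace H] in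
theorem Q_R (v : H) : Q b (R b v) = 0 := by
  rw [Q_apply, inner_R_zero, inner_R_one]; simp

omit [CompleteSpace H] in
theorem norm_sq_eq (v : H) :
    ‖v‖ ^ 2 = ‖⟪b 0, v⟫_ℂ‖ ^ 2 + ‖⟪b 1, v⟫_ℂ‖ ^ 2 + ‖R b v‖ ^ 2 := by
  have h1 : ⟪Q b v, R b v⟫_ℂ = 0 := by rw [inner_Q_left, Q_R, inner_zero_right]
  have h2 : v = Q b v + R b v := by rw [R_apply]; abel
  have h3 : ‖Q b v + R b v‖ * ‖Q b v + R b v‖ = ‖Q b v‖ * ‖Q b v‖ + ‖R b v‖ * ‖R b v‖ :=
    norm_add_sq_eq_norm_sq_add_norm_sq_of_inner_eq_zero _ _ h1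
  have h4 : ‖Q b v‖ * ‖Q b v‖ = ‖⟪b 0, v⟫_ℂ‖ * ‖⟪b 0, v⟫_ℂ‖ + ‖⟪b 1, v⟫_ℂ‖ * ‖⟪b 1, v⟫_ℂ‖ := by
    rw [Q_apply, norm_add_sq_eq_norm_sq_add_norm_sq_of_inner_eq_zero (𝕜 := ℂ)]
    · rw [norm_smul, norm_smul, b.orthonormal.1, b.orthonormal.1, mul_one, mul_one]
    · rw [inner_smul_left, inner_smul_right, inner_basis]; simp
  rw [← h2] at h3
  nlinarith [h3, h4]

omit [CompleteSpace H] in
theorem norm_R_apply_le (v : H) : ‖R b v‖ ≤ ‖v‖ := by
  have := norm_sq_eq b v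
  have h : ‖R b v‖ ^ 2 ≤ ‖v‖ ^ 2 := by
    nlinarith [sq_nonneg ‖⟪b 0, v⟫_ℂ‖, sq_nonneg ‖⟪b 1, v⟫_ℂ‖]
  exact (sq_le_sq₀ (norm_nonneg _) (norm_nonneg _)).1 h

omit [CompleteSpace H] in
theorem norm_R_le : ‖R b‖ ≤ 1 :=
  ContinuousLinearMap.opNorm_le_bound _ zero_le_one fun v => by
    rw [one_mul]; exact norm_R_apply_le b v

omit [CompleteSpace H] in
theorem norm_Q_apply_le (v : H) : ‖Q b v‖ ≤ ‖v‖ := by
  have h1 : ⟪Q b v, R b v⟫_ℂ = 0 := by rw [inner_Q_left, Q_R, inner_zero_right]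
  have h2 : v = Q b v + R b v := by rw [R_apply]; abel
  have h3 : ‖Q b v + R b v‖ * ‖Q b v + R b v‖ = ‖Q b v‖ * ‖Q b v‖ + ‖R b v‖ * ‖R b v‖ :=
    norm_add_sq_eq_norm_sq_add_norm_sq_of_inner_eq_zero _ _ h1
  rw [← h2] at h3
  nlinarith [norm_nonneg (Q b v), norm_nonneg v, norm_nonneg (R b v),
    mul_self_nonneg ‖R b v‖]

omit [CompleteSpace H] in
theorem norm_Q_le : ‖Q b‖ ≤ 1 :=
  ContinuousLinearMap.opNorm_le_bound _ zero_le_one fun v => by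
    rw [one_mul]; exact norm_Q_apply_le b v

theorem star_Q : star (Q b) = Q b := by
  rw [ContinuousLinearMap.star_eq_adjoint]
  symm
  rw [ContinuousLinearMap.eq_adjoint_iff]
  exact inner_Q_left b

theorem star_R : star (R b) = R b := by
  rw [ContinuousLinearMap.star_eq_adjoint]
  symm
  rw [ContinuousLinearMap.eq_adjoint_iff]
  exact inner_R_left b

end proj

namespace Schatten

variable {b : HilbertBasis ℕ ℂ H} {p : ℝ} [hp : Fact (1 ≤ p)]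

/-- Pinching inequality. -/
theorem pinching (x : Schatten b p) :
    ‖⟪b 0, x.op (b 0)⟫_ℂ‖ ^ p + ‖⟪b 1, x.op (b 1)⟫_ℂ‖ ^ p + ‖sandwich (R b) (R b) x‖ ^ p
      ≤ ‖x‖ ^ p := by
  have hp0 : 0 < p := zero_lt_p
  set y := sandwich (R b) (R b) x with hy
  obtain ⟨κ, u, v, hu, hv, huv⟩ := exists_orthonormal_traceAbsPow_eq b hp0 y.isCompact_op
  have hb : ∀ w : κ → H, Bessel w →
      Bessel (Sum.elim (fun i : Fin 2 => b i) (fun k => R b (w k))) := by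
    intro w hw z
    rw [Summable.tsum_sum ENNReal.summable ENNReal.summable]
    simp only [Sum.elim_inl, Sum.elim_inr, tsum_fintype, Fin.sum_univ_two]
    have h1 : ∑' k, ‖⟪R b (w k), z⟫_ℂ‖ₑ ^ 2 ≤ ‖R b z‖ₑ ^ 2 := by
      simp_rw [inner_R_left]
      exact hw _
    refine (add_le_add_right h1 _).trans ?_
    have h2 := norm_sq_eq b z
    rw [← ofReal_norm, ← ofReal_norm, ← ofReal_norm, ← ofReal_norm,
      ← ENNReal.ofReal_pow (norm_nonneg _), ← ENNReal.ofReal_pow (norm_nonneg _),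
      ← ENNReal.ofReal_pow (norm_nonneg _), ← ENNReal.ofReal_pow (norm_nonneg _), h2,
      ENNReal.ofReal_add (by positivity) (by positivity),
      ENNReal.ofReal_add (by positivity) (by positivity)]
    simp
  have h := tsum_ofReal_inner_rpow_le x (hb u (.of_orthonormal hu)) (hb v (.of_orthonormal hv))
  rw [Summable.tsum_sum ENNReal.summable ENNReal.summable] at h
  simp only [Sum.elim_inl, Sum.elim_inr, tsum_fintype, Fin.sum_univ_two] at h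
  have h3 : ∑' k, ‖⟪R b (v k), x.op (R b (u k))⟫_ℂ‖ₑ ^ p = ENNReal.ofReal (‖y‖ ^ p) := by
    rw [ofReal_norm_rpow, huv]
    refine tsum_congr fun k => ?_
    rw [hy, op_sandwich, inner_R_left]
    rfl
  rw [h3, ← ofReal_norm, ← ofReal_norm, ENNReal.ofReal_rpow_of_nonneg (norm_nonneg _) hp0.le,
    ENNReal.ofReal_rpow_of_nonneg (norm_nonneg _) hp0.le,
    ← ENNReal.ofReal_add (by positivity) (by positivity),
    ← ENNReal.ofReal_add (by positivity) (by positivity),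
    ENNReal.ofReal_le_ofReal_iff (by positivity)] at h
  simpa using h

/-- Two-dimensional compressions. -/
theorem two_le (x : Schatten b p) {u₀ u₁ v₀ v₁ : H} (hu₀ : ‖u₀‖ = 1) (hu₁ : ‖u₁‖ = 1)
    (hu : ⟪u₀, u₁⟫_ℂ = 0) (hv₀ : ‖v₀‖ = 1) (hv₁ : ‖v₁‖ = 1) (hv : ⟪v₀, v₁⟫_ℂ = 0) :
    ‖⟪v₀, x.op u₀⟫_ℂ‖ ^ p + ‖⟪v₁, x.op u₁⟫_ℂ‖ ^ p ≤ ‖x‖ ^ p := by
  have hp0 : 0 < p := zero_lt_p
  have key : ∀ {w₀ w₁ : H}, ‖w₀‖ = 1 → ‖w₁‖ = 1 → ⟪w₀, w₁⟫_ℂ = 0 →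
      Orthonormal ℂ (fun i : Bool => cond i w₁ w₀) := by
    intro w₀ w₁ h0 h1 h
    refine ⟨?_, ?_⟩
    · rintro (_ | _) <;> simp [h0, h1]
    · rintro (_ | _) (_ | _) hij
      · exact absurd rfl hij
      · simpa using h
      · simpa using inner_eq_zero_symm.1 h
      · exact absurd rfl hij
  have h := tsum_ofReal_inner_rpow_le x (Bessel.of_orthonormal (key hu₀ hu₁ hu))
    (Bessel.of_orthonormal (key hv₀ hv₁ hv))
  rw [tsum_fintype, Fintype.sum_bool] at h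
  simp only [cond_true, cond_false] at h
  rw [← ofReal_norm, ← ofReal_norm, ENNReal.ofReal_rpow_of_nonneg (norm_nonneg _) hp0.le,
    ENNReal.ofReal_rpow_of_nonneg (norm_nonneg _) hp0.le,
    ← ENNReal.ofReal_add (by positivity) (by positivity),
    ENNReal.ofReal_le_ofReal_iff (by positivity), add_comm] at h
  exact h

omit [CompleteSpace H] in
theorem inner_R_self (v : H) : ⟪v, R b v⟫_ℂ = ((‖R b v‖ ^ 2 : ℝ) : ℂ) := by
  have h2 : v = Q b v + R b v := by rw [R_apply]; abel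
  have h1 : ⟪Q b v, R b v⟫_ℂ = 0 := by rw [inner_Q_left, Q_R, inner_zero_right]
  calc ⟪v, R b v⟫_ℂ = ⟪Q b v + R b v, R b v⟫_ℂ := by rw [← h2]
    _ = ⟪R b v, R b v⟫_ℂ := by rw [inner_add_left, h1, zero_add]
    _ = _ := by rw [inner_self_eq_norm_sq_to_K]; simp

omit [CompleteSpace H] in
theorem norm_R_add_smul_sq (v : H) (α : ℂ) {i : ℕ} (hi : ∀ v, ⟪b i, R b v⟫_ℂ = 0) :
    ‖R b v + α • b i‖ ^ 2 = ‖R b v‖ ^ 2 + ‖α‖ ^ 2 := by
  have h1 : ⟪R b v, α • b i⟫_ℂ = 0 := by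
    rw [inner_smul_right, inner_eq_zero_symm.1 (hi v), mul_zero]
  have h3 := norm_add_sq_eq_norm_sq_add_norm_sq_of_inner_eq_zero (𝕜 := ℂ) _ _ h1
  rw [norm_smul, b.orthonormal.1, mul_one] at h3
  nlinarith [h3]

theorem row_le (x : Schatten b p) {i j : ℕ} (hij : i ≠ j) (hi : ∀ v, ⟪b i, R b v⟫_ℂ = 0)
    (hj : ∀ v, ⟪b j, R b v⟫_ℂ = 0) :
    (‖⟪b i, x.op (b i)⟫_ℂ‖ ^ 2 + ‖R b ((star x.op) (b i))‖ ^ 2) ^ (p / 2)
      + ‖⟪b j, x.op (b j)⟫_ℂ‖ ^ p ≤ ‖x‖ ^ p := by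
  have hp0 : 0 < p := zero_lt_p
  have hbi : ∀ k, ‖b k‖ = 1 := b.orthonormal.1
  set α : ℂ := ⟪b i, x.op (b i)⟫_ℂ with hα
  set r : H := R b ((star x.op) (b i)) with hr
  set v : H := r + (starRingEnd ℂ α) • b i with hv
  have hN : ‖v‖ ^ 2 = ‖r‖ ^ 2 + ‖α‖ ^ 2 := by
    rw [hv, hr, norm_R_add_smul_sq _ _ hi, RCLike.norm_conj]
  have hNN : (‖α‖ ^ 2 + ‖r‖ ^ 2) ^ (p / 2) = ‖v‖ ^ p := by
    rw [add_comm, ← hN, ← Real.rpow_natCast, ← Real.rpow_mul (norm_nonneg _)]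
    congr 1; push_cast; ring
  rw [hNN]
  have hvj : ⟪v, b j⟫_ℂ = 0 := by
    rw [hv, inner_add_left, inner_smul_left, b.orthonormal.2 hij, mul_zero, add_zero]
    exact inner_eq_zero_symm.1 (hj _)
  have hxv : ⟪b i, x.op v⟫_ℂ = ((‖v‖ ^ 2 : ℝ) : ℂ) := by
    rw [← ContinuousLinearMap.adjoint_inner_left, ← ContinuousLinearMap.star_eq_adjoint, hv,
      inner_add_right, inner_smul_right, hr, inner_R_self, ContinuousLinearMap.star_eq_adjoint,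
      ContinuousLinearMap.adjoint_inner_left, ← hα, ← ContinuousLinearMap.star_eq_adjoint, ← hr,
      ← hv, hN, Complex.ofReal_add, mul_comm, Complex.mul_conj, Complex.normSq_eq_norm_sq]
  rcases eq_or_ne v 0 with hv0 | hv0
  · rw [hv0, norm_zero, Real.zero_rpow hp0.ne', zero_add]
    have := two_le x (hbi i) (hbi j) (b.orthonormal.2 hij) (hbi i) (hbi j) (b.orthonormal.2 hij)
    have h2 : 0 ≤ ‖⟪b i, x.op (b i)⟫_ℂ‖ ^ p := by positivity
    linarith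
  · have hvn : ‖v‖ ≠ 0 := norm_ne_zero_iff.2 hv0
    have h := two_le x (u₀ := ((‖v‖⁻¹ : ℝ) : ℂ) • v) (u₁ := b j) (v₀ := b i) (v₁ := b j)
      (by rw [norm_smul, Complex.norm_real, norm_inv, norm_norm, inv_mul_cancel₀ hvn])
      (hbi j) (by rw [inner_smul_left, hvj, mul_zero]) (hbi i) (hbi j) (b.orthonormal.2 hij)
    have h2 : ‖⟪b i, x.op (((‖v‖⁻¹ : ℝ) : ℂ) • v)⟫_ℂ‖ = ‖v‖ := by
      rw [map_smul, inner_smul_right, hxv, norm_mul, Complex.norm_real, Complex.norm_real,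
        norm_inv, norm_norm, Real.norm_eq_abs, abs_of_nonneg (by positivity), pow_two,
        ← mul_assoc, inv_mul_cancel₀ hvn, one_mul]
    rwa [h2] at h

theorem col_le (x : Schatten b p) {i j : ℕ} (hij : i ≠ j) (hi : ∀ v, ⟪b i, R b v⟫_ℂ = 0)
    (hj : ∀ v, ⟪b j, R b v⟫_ℂ = 0) :
    (‖⟪b i, x.op (b i)⟫_ℂ‖ ^ 2 + ‖R b (x.op (b i))‖ ^ 2) ^ (p / 2)
      + ‖⟪b j, x.op (b j)⟫_ℂ‖ ^ p ≤ ‖x‖ ^ p := by
  have hp0 : 0 < p := zero_lt_p
  have hbi : ∀ k, ‖b k‖ = 1 := b.orthonormal.1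
  set α : ℂ := ⟪b i, x.op (b i)⟫_ℂ with hα
  set r : H := R b (x.op (b i)) with hr
  set v : H := r + α • b i with hv
  have hN : ‖v‖ ^ 2 = ‖r‖ ^ 2 + ‖α‖ ^ 2 := by
    rw [hv, hr, norm_R_add_smul_sq _ _ hi]
  have hNN : (‖α‖ ^ 2 + ‖r‖ ^ 2) ^ (p / 2) = ‖v‖ ^ p := by
    rw [add_comm, ← hN, ← Real.rpow_natCast, ← Real.rpow_mul (norm_nonneg _)]
    congr 1; push_cast; ring
  rw [hNN]
  have hvj : ⟪v, b j⟫_ℂ = 0 := by
    rw [hv, inner_add_left, inner_smul_left, b.orthonormal.2 hij, mul_zero, add_zero]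
    exact inner_eq_zero_symm.1 (hj _)
  have hxv : ⟪v, x.op (b i)⟫_ℂ = ((‖v‖ ^ 2 : ℝ) : ℂ) := by
    rw [hv, inner_add_left, inner_smul_left, ← hα, hr, ← inner_conj_symm (R b (x.op (b i))),
      inner_R_self, Complex.conj_ofReal, ← hr, ← hv, hN, Complex.ofReal_add, mul_comm,
      Complex.mul_conj, Complex.normSq_eq_norm_sq]
  rcases eq_or_ne v 0 with hv0 | hv0
  · rw [hv0, norm_zero, Real.zero_rpow hp0.ne', zero_add]
    have := two_le x (hbi i) (hbi j) (b.orthonormal.2 hij) (hbi i) (hbi j) (b.orthonormal.2 hij)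
    have h2 : 0 ≤ ‖⟪b i, x.op (b i)⟫_ℂ‖ ^ p := by positivity
    linarith
  · have hvn : ‖v‖ ≠ 0 := norm_ne_zero_iff.2 hv0
    have h := two_le x (v₀ := ((‖v‖⁻¹ : ℝ) : ℂ) • v) (v₁ := b j) (u₀ := b i) (u₁ := b j)
      (hbi i) (hbi j) (b.orthonormal.2 hij)
      (by rw [norm_smul, Complex.norm_real, norm_inv, norm_norm, inv_mul_cancel₀ hvn])
      (hbi j) (by rw [inner_smul_left, hvj, mul_zero])
    have h2 : ‖⟪((‖v‖⁻¹ : ℝ) : ℂ) • v, x.op (b i)⟫_ℂ‖ = ‖v‖ := by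
      rw [inner_smul_left, hxv, norm_mul, RCLike.norm_conj, Complex.norm_real, Complex.norm_real,
        norm_inv, norm_norm, Real.norm_eq_abs, abs_of_nonneg (by positivity), pow_two,
        ← mul_assoc, inv_mul_cancel₀ hvn, one_mul]
    rwa [h2] at h

end Schatten

end Pool.Agent.Helper55.SvN
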