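import Mathlib
import Pool.Agent.Helper55_Schatten.Estimates

open scoped InnerProductSpace ENNReal Topology
open InnerProductSpace (rankOne)
open Filter

namespace Pool.Agent.Helper55.SvN

universe u

variable {H : Type u} [NormedAddCommGroup H] [InnerProductSpace ℂ H] [CompleteSpace H]

namespace Schatten

variable {b : HilbertBasis ℕ ℂ H} {p : ℝ} [hp : Fact (1 ≤ p)]

/-- The rank-two projection `q` as an element of `𝔖_p`. -/
noncomputable def q : Schatten b p := rk (b 0) (b 0) + rk (b 1) (b 1)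

theorem op_q : (q : Schatten b p).op = Q b := rfl

/-- Block decomposition of `x` along `q`. -/
theorem block (x : Schatten b p) :
    x = (⟪b 0, x.op (b 0)⟫_ℂ • rk (b 0) (b 0) + ⟪b 0, x.op (b 1)⟫_ℂ • rk (b 0) (b 1)
      + ⟪b 1, x.op (b 0)⟫_ℂ • rk (b 1) (b 0) + ⟪b 1, x.op (b 1)⟫_ℂ • rk (b 1) (b 1))
      + (rk (b 0) (R b ((star x.op) (b 0))) + rk (b 1) (R b ((star x.op) (b 1))))
      + (rk (R b (x.op (b 0))) (b 0) + rk (R b (x.op (b 1))) (b 1))
      + sandwich (R b) (R b) x := by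
  apply op_injective
  ext v
  have h1 : ∀ i w, ⟪R b ((star x.op) (b i)), w⟫_ℂ = ⟪b i, x.op (R b w)⟫_ℂ := by
    intro i w
    rw [inner_R_left, ContinuousLinearMap.star_eq_adjoint, ContinuousLinearMap.adjoint_inner_left]
  have hv : v = Q b v + R b v := by rw [R_apply]; abel
  have hx : ∀ w, x.op w = Q b (x.op w) + R b (x.op w) := fun w => by rw [R_apply]; abel
  simp only [op_add, op_smul, op_rk, op_sandwich, add_apply, smul_apply,
    InnerProductSpace.rankOne_apply, h1, mul_apply_eq_comp]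
  have e1 : x.op v = Q b (x.op (Q b v)) + R b (x.op (Q b v)) + (Q b (x.op (R b v))
      + R b (x.op (R b v))) := by
    rw [← hx, ← hx, ← map_add, ← hv]
  rw [e1]
  have e2 : Q b (x.op (Q b v)) = ⟪b 0, x.op (b 0)⟫_ℂ • ⟪b 0, v⟫_ℂ • b 0
      + ⟪b 0, x.op (b 1)⟫_ℂ • ⟪b 1, v⟫_ℂ • b 0 + ⟪b 1, x.op (b 0)⟫_ℂ • ⟪b 0, v⟫_ℂ • b 1
      + ⟪b 1, x.op (b 1)⟫_ℂ • ⟪b 1, v⟫_ℂ • b 1 := by
    rw [Q_apply, Q_apply b v, map_add, map_smul, map_smul, inner_add_right, inner_add_right,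
      inner_smul_right, inner_smul_right, inner_smul_right, inner_smul_right]
    module
  have e3 : R b (x.op (Q b v)) = ⟪b 0, v⟫_ℂ • R b (x.op (b 0)) + ⟪b 1, v⟫_ℂ • R b (x.op (b 1)) := by
    rw [Q_apply b v, map_add, map_smul, map_smul, map_add, map_smul, map_smul]
  have e4 : Q b (x.op (R b v)) = ⟪b 0, x.op (R b v)⟫_ℂ • b 0 + ⟪b 1, x.op (R b v)⟫_ℂ • b 1 := by
    rw [Q_apply]
  rw [e2, e3, e4]
  abel

/-- If `s a` converges entrywise to `q` on the range of `q` and `‖s a‖ ≤ ‖q‖`, then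
`s a → q` in norm. -/
theorem tendsto_q {α : Type*} {F : Filter α} {s : α → Schatten b p}
    (hn : ∀ᶠ a in F, ‖s a‖ ^ p ≤ 2)
    (h00 : Tendsto (fun a => ⟪b 0, (s a).op (b 0)⟫_ℂ) F (𝓝 1))
    (h01 : Tendsto (fun a => ⟪b 0, (s a).op (b 1)⟫_ℂ) F (𝓝 0))
    (h10 : Tendsto (fun a => ⟪b 1, (s a).op (b 0)⟫_ℂ) F (𝓝 0))
    (h11 : Tendsto (fun a => ⟪b 1, (s a).op (b 1)⟫_ℂ) F (𝓝 1)) :
    Tendsto (fun a => ‖s a - q‖) F (𝓝 0) := by
  have hp0 : 0 < p := zero_lt_p
  -- off-diagonal blocks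
  have hsq : ∀ {f : α → ℝ}, (∀ a, 0 ≤ f a) → Tendsto (fun a => f a ^ 2) F (𝓝 0) →
      Tendsto f F (𝓝 0) := by
    intro f hf h
    have := (Real.continuous_sqrt.tendsto 0).comp h
    simp only [Function.comp_def, Real.sqrt_zero] at this
    refine this.congr fun a => ?_
    rw [Real.sqrt_sq (hf a)]
  have haux : ∀ {A B : α → ℂ} {r : α → ℝ}, Tendsto A F (𝓝 1) → Tendsto B F (𝓝 1) →
      (∀ a, 0 ≤ r a) → (∀ a, (‖A a‖ ^ 2 + r a ^ 2) ^ (p / 2) + ‖B a‖ ^ p ≤ ‖s a‖ ^ p) →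
      Tendsto r F (𝓝 0) := by
    intro A B r hA hB hr h
    apply hsq hr
    have hlim : Tendsto (fun a => (2 - ‖B a‖ ^ p) ^ (2 / p) - ‖A a‖ ^ 2) F (𝓝 0) := by
      have h1 : Tendsto (fun a => ‖B a‖ ^ p) F (𝓝 1) := by
        have := (hB.norm).rpow_const (p := p) (Or.inr hp0.le)
        simpa using this
      have h2 : Tendsto (fun a => (2 - ‖B a‖ ^ p) ^ (2 / p)) F (𝓝 1) := by
        have := (h1.const_sub 2).rpow_const (p := 2 / p) (Or.inr (by positivity))
        norm_num at this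
        exact this
      have h3 : Tendsto (fun a => ‖A a‖ ^ 2) F (𝓝 1) := by
        have := (hA.norm).pow 2
        simpa using this
      simpa using h2.sub h3
    refine squeeze_zero' (.of_forall fun a => by positivity) ?_ hlim
    filter_upwards [hn] with a ha
    have h1 := h a
    have h2 : (‖A a‖ ^ 2 + r a ^ 2) ^ (p / 2) ≤ 2 - ‖B a‖ ^ p := by linarith
    have h3 : ((‖A a‖ ^ 2 + r a ^ 2) ^ (p / 2)) ^ (2 / p) ≤ (2 - ‖B a‖ ^ p) ^ (2 / p) :=
      Real.rpow_le_rpow (by positivity) h2 (by positivity)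
    rw [← Real.rpow_mul (by positivity)] at h3
    have h4 : p / 2 * (2 / p) = 1 := by field_simp
    rw [h4, Real.rpow_one] at h3
    linarith
  have r0 := haux (r := fun a => ‖R b ((star (s a).op) (b 0))‖) h00 h11 (fun a => norm_nonneg _)
    (fun a => row_le (s a) zero_ne_one (inner_R_zero b) (inner_R_one b))
  have r1 := haux (r := fun a => ‖R b ((star (s a).op) (b 1))‖) h11 h00 (fun a => norm_nonneg _)
    (fun a => row_le (s a) one_ne_zero (inner_R_one b) (inner_R_zero b))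
  have c0 := haux (r := fun a => ‖R b ((s a).op (b 0))‖) h00 h11 (fun a => norm_nonneg _)
    (fun a => col_le (s a) zero_ne_one (inner_R_zero b) (inner_R_one b))
  have c1 := haux (r := fun a => ‖R b ((s a).op (b 1))‖) h11 h00 (fun a => norm_nonneg _)
    (fun a => col_le (s a) one_ne_zero (inner_R_one b) (inner_R_zero b))
  -- the last diagonal block
  have hRR : Tendsto (fun a => ‖sandwich (R b) (R b) (s a)‖) F (𝓝 0) := by
    have hlim : Tendsto (fun a => 2 - ‖⟪b 0, (s a).op (b 0)⟫_ℂ‖ ^ p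
        - ‖⟪b 1, (s a).op (b 1)⟫_ℂ‖ ^ p) F (𝓝 0) := by
      have h1 := (h00.norm).rpow_const (p := p) (Or.inr hp0.le)
      have h2 := (h11.norm).rpow_const (p := p) (Or.inr hp0.le)
      have := (h1.const_sub 2).sub h2
      norm_num at this
      exact this
    have h1 : Tendsto (fun a => ‖sandwich (R b) (R b) (s a)‖ ^ p) F (𝓝 0) := by
      refine squeeze_zero' (.of_forall fun a => by positivity) ?_ hlim
      filter_upwards [hn] with a ha
      have := pinching (s a)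
      linarith
    have h2 := h1.rpow_const (p := 1 / p) (Or.inr (by positivity))
    rw [Real.zero_rpow (by positivity)] at h2
    refine h2.congr fun a => ?_
    rw [← Real.rpow_mul (norm_nonneg _), mul_one_div_cancel hp0.ne', Real.rpow_one]
  -- entries
  have e00 : Tendsto (fun a => ‖⟪b 0, (s a).op (b 0)⟫_ℂ - 1‖) F (𝓝 0) := by
    simpa using (h00.sub_const 1).norm
  have e11 : Tendsto (fun a => ‖⟪b 1, (s a).op (b 1)⟫_ℂ - 1‖) F (𝓝 0) := by
    simpa using (h11.sub_const 1).norm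
  have e01 : Tendsto (fun a => ‖⟪b 0, (s a).op (b 1)⟫_ℂ‖) F (𝓝 0) := by simpa using h01.norm
  have e10 : Tendsto (fun a => ‖⟪b 1, (s a).op (b 0)⟫_ℂ‖) F (𝓝 0) := by simpa using h10.norm
  have htot := (((((e00.add e01).add e10).add e11).add (r0.add r1)).add (c0.add c1)).add hRR
  norm_num at htot
  refine squeeze_zero (fun a => norm_nonneg _) (fun a => ?_) htot
  have hb : ∀ k, ‖b k‖ = 1 := b.orthonormal.1
  have hdec : s a - q = ((⟪b 0, (s a).op (b 0)⟫_ℂ - 1) • rk (b 0) (b 0)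
      + ⟪b 0, (s a).op (b 1)⟫_ℂ • rk (b 0) (b 1)
      + ⟪b 1, (s a).op (b 0)⟫_ℂ • rk (b 1) (b 0)
      + (⟪b 1, (s a).op (b 1)⟫_ℂ - 1) • rk (b 1) (b 1))
      + (rk (b 0) (R b ((star (s a).op) (b 0))) + rk (b 1) (R b ((star (s a).op) (b 1))))
      + (rk (R b ((s a).op (b 0))) (b 0) + rk (R b ((s a).op (b 1))) (b 1))
      + sandwich (R b) (R b) (s a) := by
    conv_lhs => rw [block (s a)]
    rw [q]
    module
  rw [hdec]
  have n1 : ∀ (z : ℂ) (k l : ℕ), ‖z • (rk (b k) (b l) : Schatten b p)‖ ≤ ‖z‖ := by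
    intro z k l
    rw [norm_smul]
    calc ‖z‖ * ‖(rk (b k) (b l) : Schatten b p)‖ ≤ ‖z‖ * (‖b k‖ * ‖b l‖) := by
          gcongr; exact norm_rk_le _ _
      _ = ‖z‖ := by rw [hb, hb]; ring
  have n2 : ∀ (k : ℕ) (v : H), ‖(rk (b k) v : Schatten b p)‖ ≤ ‖v‖ := by
    intro k v
    refine (norm_rk_le _ _).trans (le_of_eq ?_)
    rw [hb, one_mul]
  have n3 : ∀ (k : ℕ) (v : H), ‖(rk v (b k) : Schatten b p)‖ ≤ ‖v‖ := by
    intro k v
    refine (norm_rk_le _ _).trans (le_of_eq ?_)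
    rw [hb, mul_one]
  refine (norm_add_le _ _).trans (add_le_add ?_ le_rfl)
  refine (norm_add_le _ _).trans (add_le_add ?_ ?_)
  · refine (norm_add_le _ _).trans (add_le_add ?_ ?_)
    · refine (norm_add_le _ _).trans (add_le_add ?_ (n1 _ _ _))
      refine (norm_add_le _ _).trans (add_le_add ?_ (n1 _ _ _))
      exact (norm_add_le _ _).trans (add_le_add (n1 _ _ _) (n1 _ _ _))
    · exact (norm_add_le _ _).trans (add_le_add (n2 _ _) (n2 _ _))
  · exact (norm_add_le _ _).trans (add_le_add (n3 _ _) (n3 _ _))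

end Schatten

end Pool.Agent.Helper55.SvN
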