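import Mathlib
import Pool.Agent.Helper55_Schatten.Conv

open scoped InnerProductSpace ENNReal Topology
open InnerProductSpace (rankOne)
open Filter

namespace Pool.Agent.Helper55.SvN

universe u

variable {H : Type u} [NormedAddCommGroup H] [InnerProductSpace ℂ H] [CompleteSpace H]

/-- Two families `f a`, `g a` in `𝔖_p` that span isometric copies of `ℓ^p_2` and whose
compressions to the range of `q` converge to `q / 2`. -/
structure PairData {b : HilbertBasis ℕ ℂ H} {p : ℝ} [Fact (1 ≤ p)] {α : Type*} (F : Filter α)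
    (f g : α → Schatten b p) : Prop where
  iso : ∀ᶠ a in F, ∀ z w : ℂ, ‖z • f a + w • g a‖ ^ p = ‖z‖ ^ p + ‖w‖ ^ p
  hf : ∀ i j : ℕ, i < 2 → j < 2 →
    Tendsto (fun a => ⟪b i, (f a).op (b j)⟫_ℂ) F (𝓝 (if i = j then 1 / 2 else 0))
  hg : ∀ i j : ℕ, i < 2 → j < 2 →
    Tendsto (fun a => ⟪b i, (g a).op (b j)⟫_ℂ) F (𝓝 (if i = j then 1 / 2 else 0))

namespace PairData

open Schatten

variable {b : HilbertBasis ℕ ℂ H} {p : ℝ} [hp : Fact (1 ≤ p)] {α : Type*} {F : Filter α}
  {f g : α → Schatten b p}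

theorem tendsto_sum (D : PairData F f g) :
    Tendsto (fun a => ‖f a + g a - q‖) F (𝓝 0) := by
  apply tendsto_q
  · filter_upwards [D.iso] with a ha
    have := ha 1 1
    simp only [one_smul, norm_one, Real.one_rpow] at this
    rw [this]; norm_num
  all_goals simp only [op_add, add_apply, inner_add_right]
  · have := (D.hf 0 0 two_pos two_pos).add (D.hg 0 0 two_pos two_pos)
    norm_num at this; exact this
  · have := (D.hf 0 1 two_pos one_lt_two).add (D.hg 0 1 two_pos one_lt_two)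
    norm_num at this; exact this
  · have := (D.hf 1 0 one_lt_two two_pos).add (D.hg 1 0 one_lt_two two_pos)
    norm_num at this; exact this
  · have := (D.hf 1 1 one_lt_two one_lt_two).add (D.hg 1 1 one_lt_two one_lt_two)
    norm_num at this; exact this

theorem norm_f (D : PairData F f g) : ∀ᶠ a in F, ‖f a‖ = 1 := by
  have hp0 : 0 < p := zero_lt_p
  filter_upwards [D.iso] with a ha
  have := ha 1 0
  simp only [one_smul, zero_smul, add_zero, norm_one, norm_zero, Real.one_rpow,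
    Real.zero_rpow hp0.ne'] at this
  have h4 : (‖f a‖ ^ p) ^ (1 / p) = 1 := by rw [this, Real.one_rpow]
  rwa [← Real.rpow_mul (norm_nonneg _), mul_one_div_cancel hp0.ne', Real.rpow_one] at h4

theorem norm_sandwich_R_le (x : Schatten b p) : ‖sandwich (R b) (R b) x‖ ≤ ‖x‖ := by
  refine (norm_sandwich_le _ _ _).trans ?_
  have h := norm_R_le b
  have h0 := norm_nonneg (R b)
  have h1 : ‖R b‖ * ‖R b‖ ≤ 1 := by nlinarith
  nlinarith [norm_nonneg x]

theorem sandwich_R_q : sandwich (R b) (R b) (q : Schatten b p) = 0 := by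
  apply op_injective
  ext v
  rw [op_sandwich, op_q, op_zero, mul_apply_eq_comp, mul_apply_eq_comp, Q_R, map_zero]
  rfl

/-- elementary inequality -/
theorem elem_ineq {p τ : ℝ} (h1 : 1 ≤ p) (h2 : p ≤ 2) (t0 : 0 < τ) (t1 : τ < 1) :
    1 + (1 - τ) ^ p - 2 * (1 - τ / 2) ^ p ≤ τ ^ 2 := by
  have e1 : 1 + p * (-(τ / 2)) ≤ (1 + -(τ / 2)) ^ p :=
    one_add_mul_self_le_rpow_one_add (by linarith) h1
  have e2 : (1 + -τ) ^ (p - 1) ≤ 1 + (p - 1) * (-τ) :=
    rpow_one_add_le_one_add_mul_self (by linarith) (by linarith) (by linarith)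
  have e3 : (1 - τ) ^ p = (1 - τ) * (1 - τ) ^ (p - 1) := by
    have : (1 - τ) ^ p = (1 - τ) ^ (1 + (p - 1)) := by congr 1; ring
    rw [this, Real.rpow_add (by linarith), Real.rpow_one]
  have e4 : (1 - τ) * (1 - τ) ^ (p - 1) ≤ (1 - τ) * (1 + (p - 1) * (-τ)) := by
    apply mul_le_mul_of_nonneg_left _ (by linarith)
    simpa [sub_eq_add_neg] using e2
  have e5 : 1 + p * (-(τ / 2)) ≤ (1 - τ / 2) ^ p := by simpa [sub_eq_add_neg] using e1
  rw [e3]
  nlinarith [mul_nonneg (by linarith : 0 ≤ 2 - p) (sq_nonneg τ)]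

theorem tendsto_sandwich_R (D : PairData F f g) (hp2 : p < 2) :
    Tendsto (fun a => ‖sandwich (R b) (R b) (f a)‖) F (𝓝 0) := by
  have hp0 : 0 < p := zero_lt_p
  have hsum : Tendsto (fun a => ‖sandwich (R b) (R b) (f a + g a)‖) F (𝓝 0) := by
    refine squeeze_zero (fun a => norm_nonneg _) (fun a => ?_) D.tendsto_sum
    have : sandwich (R b) (R b) (f a + g a) = sandwich (R b) (R b) (f a + g a - q) := by
      rw [map_sub, sandwich_R_q, sub_zero]
    rw [this]
    exact norm_sandwich_R_le _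
  have key : ∀ τ : ℝ, 0 < τ → τ < 1 →
      ∀ᶠ a in F, ‖sandwich (R b) (R b) (f a)‖ ≤ 2 ^ (1 / p) * τ ^ (2 / p - 1) + τ := by
    intro τ t0 t1
    have hent : ∀ i : ℕ, i < 2 → Tendsto (fun a =>
        ‖⟪b i, ((1 : ℂ) • f a + ((1 - τ : ℝ) : ℂ) • g a).op (b i)⟫_ℂ‖ ^ p) F
        (𝓝 ((1 - τ / 2) ^ p)) := by
      intro i hi
      simp only [op_add, op_smul, one_smul, add_apply, smul_apply, inner_add_right,
        inner_smul_right]
      have h1 := (D.hf i i hi hi).add ((D.hg i i hi hi).const_mul (((1 - τ : ℝ) : ℂ)))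
      have h2 : (if i = i then (1 / 2 : ℂ) else 0) + (((1 - τ : ℝ) : ℂ))
          * (if i = i then (1 / 2 : ℂ) else 0) = ((1 - τ / 2 : ℝ) : ℂ) := by
        simp only [if_true]
        push_cast
        ring
      rw [h2] at h1
      have h3 := h1.norm.rpow_const (p := p) (Or.inr hp0.le)
      rw [Complex.norm_real, Real.norm_eq_abs, abs_of_nonneg (by linarith)] at h3
      exact h3
    have hlim := ((hent 0 two_pos).const_sub (1 + (1 - τ) ^ p)).sub (hent 1 one_lt_two)
    have hev : ∀ᶠ a in F, 1 + (1 - τ) ^ p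
        - ‖⟪b 0, ((1 : ℂ) • f a + ((1 - τ : ℝ) : ℂ) • g a).op (b 0)⟫_ℂ‖ ^ p
        - ‖⟪b 1, ((1 : ℂ) • f a + ((1 - τ : ℝ) : ℂ) • g a).op (b 1)⟫_ℂ‖ ^ p < 2 * τ ^ 2 := by
      apply hlim.eventually_lt_const
      have := elem_ineq hp.out hp2.le t0 t1
      nlinarith [sq_nonneg τ, mul_pos t0 t0]
    have hev2 : ∀ᶠ a in F, ‖sandwich (R b) (R b) (f a + g a)‖ < τ ^ 2 :=
      hsum.eventually_lt_const (by positivity)
    filter_upwards [hev, hev2, D.iso] with a h1 h2 h3
    have hpin := pinching ((1 : ℂ) • f a + ((1 - τ : ℝ) : ℂ) • g a)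
    rw [h3 1 ((1 - τ : ℝ) : ℂ), norm_one, Real.one_rpow, Complex.norm_real, Real.norm_eq_abs,
      abs_of_nonneg (by linarith : (0 : ℝ) ≤ 1 - τ)] at hpin
    have h4 : ‖sandwich (R b) (R b) ((1 : ℂ) • f a + ((1 - τ : ℝ) : ℂ) • g a)‖ ^ p
        ≤ 2 * τ ^ 2 := by linarith
    have h5 : ‖sandwich (R b) (R b) ((1 : ℂ) • f a + ((1 - τ : ℝ) : ℂ) • g a)‖
        ≤ (2 * τ ^ 2) ^ (1 / p) := by
      have := Real.rpow_le_rpow (by positivity) h4 (by positivity : 0 ≤ 1 / p)
      rwa [← Real.rpow_mul (norm_nonneg _), mul_one_div_cancel hp0.ne', Real.rpow_one] at this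
    have h6 : (τ : ℂ) • sandwich (R b) (R b) (f a)
        = sandwich (R b) (R b) ((1 : ℂ) • f a + ((1 - τ : ℝ) : ℂ) • g a)
          - ((1 - τ : ℝ) : ℂ) • sandwich (R b) (R b) (f a + g a) := by
      rw [map_add, map_smul, map_smul, map_add]
      push_cast
      module
    have h7 : τ * ‖sandwich (R b) (R b) (f a)‖ ≤ (2 * τ ^ 2) ^ (1 / p) + τ ^ 2 := by
      calc τ * ‖sandwich (R b) (R b) (f a)‖ = ‖(τ : ℂ) • sandwich (R b) (R b) (f a)‖ := by
            rw [norm_smul, Complex.norm_real, Real.norm_eq_abs, abs_of_pos t0]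
        _ ≤ ‖sandwich (R b) (R b) ((1 : ℂ) • f a + ((1 - τ : ℝ) : ℂ) • g a)‖
            + ‖((1 - τ : ℝ) : ℂ) • sandwich (R b) (R b) (f a + g a)‖ := by
            rw [h6]; exact norm_sub_le _ _
        _ ≤ (2 * τ ^ 2) ^ (1 / p) + τ ^ 2 := by
            refine add_le_add h5 ?_
            rw [norm_smul, Complex.norm_real, Real.norm_eq_abs, abs_of_pos (by linarith)]
            nlinarith [norm_nonneg (sandwich (R b) (R b) (f a + g a))]
    have h8 : (2 * τ ^ 2) ^ (1 / p) = τ * (2 ^ (1 / p) * τ ^ (2 / p - 1)) := by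
      rw [Real.mul_rpow (by norm_num) (by positivity), ← Real.rpow_natCast,
        ← Real.rpow_mul t0.le]
      have : τ ^ ((2 : ℕ) * (1 / p)) = τ * τ ^ (2 / p - 1) := by
        rw [mul_comm τ, ← Real.rpow_add_one t0.ne']
        congr 1
        push_cast
        ring
      rw [this]
      ring
    rw [h8] at h7
    have h9 : τ * ‖sandwich (R b) (R b) (f a)‖ ≤ τ * (2 ^ (1 / p) * τ ^ (2 / p - 1) + τ) := by
      nlinarith
    exact le_of_mul_le_mul_left h9 t0
  rw [Metric.tendsto_nhds]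
  intro ε hε
  have hexp : 0 < 2 / p - 1 := by
    rw [sub_pos, lt_div_iff₀ hp0]; linarith
  have hcont : Tendsto (fun τ : ℝ => 2 ^ (1 / p) * τ ^ (2 / p - 1) + τ) (𝓝[>] 0) (𝓝 0) := by
    have h1 : ContinuousAt (fun τ : ℝ => 2 ^ (1 / p) * τ ^ (2 / p - 1) + τ) 0 := by
      apply ContinuousAt.add _ continuousAt_id
      apply ContinuousAt.mul continuousAt_const
      exact Real.continuousAt_rpow_const _ _ (Or.inr hexp.le)
    have h2 : Tendsto (fun τ : ℝ => 2 ^ (1 / p) * τ ^ (2 / p - 1) + τ) (𝓝 0) (𝓝 0) := by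
      have := h1.tendsto
      simpa [Real.zero_rpow hexp.ne'] using this
    exact h2.mono_left nhdsWithin_le_nhds
  have hev := (hcont.eventually_lt_const hε).and
    (Ioo_mem_nhdsGT (zero_lt_one : (0 : ℝ) < 1))
  obtain ⟨τ, hτ1, hτ2⟩ := hev.exists
  filter_upwards [key τ hτ2.1 hτ2.2] with a ha
  rw [Real.dist_eq, sub_zero, abs_of_nonneg (norm_nonneg _)]
  exact lt_of_le_of_lt ha hτ1

omit [CompleteSpace H] in
theorem norm_Q_add_smul_R_le {ω : ℂ} (hω : ‖ω‖ ≤ 1) : ‖Q b + ω • R b‖ ≤ 1 := by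
  refine ContinuousLinearMap.opNorm_le_bound _ zero_le_one fun v => ?_
  rw [one_mul]
  have h1 : ⟪Q b v, R b v⟫_ℂ = 0 := by rw [inner_Q_left, Q_R, inner_zero_right]
  have h1' : ⟪Q b v, ω • R b v⟫_ℂ = 0 := by rw [inner_smul_right, h1, mul_zero]
  have h2 : v = Q b v + R b v := by rw [R_apply]; abel
  have h3 := norm_add_sq_eq_norm_sq_add_norm_sq_of_inner_eq_zero (𝕜 := ℂ) _ _ h1
  have h4 := norm_add_sq_eq_norm_sq_add_norm_sq_of_inner_eq_zero (𝕜 := ℂ) _ _ h1'
  rw [← h2] at h3
  have h5 : (Q b + ω • R b) v = Q b v + ω • R b v := rfl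
  rw [h5]
  have h6 : ‖ω • R b v‖ ≤ ‖R b v‖ := by
    rw [norm_smul]
    nlinarith [norm_nonneg (R b v)]
  have h7 : ‖Q b v + ω • R b v‖ * ‖Q b v + ω • R b v‖ ≤ ‖v‖ * ‖v‖ := by
    rw [h3, h4]
    nlinarith [norm_nonneg (ω • R b v), norm_nonneg (R b v)]
  exact (mul_self_le_mul_self_iff (norm_nonneg _) (norm_nonneg _)).2 h7

/-- The case `p < 2`: there are no such families. -/
theorem false_of_lt_two [F.NeBot] (D : PairData F f g) (hp2 : p < 2) : False := by
  have hp0 : 0 < p := zero_lt_p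
  set W : H →L[ℂ] H := Q b + Complex.I • R b with hW
  have hWn : ‖W‖ ≤ 1 := norm_Q_add_smul_R_le (by simp)
  -- `Q f Q → q / 2`
  have hQQ : Tendsto (fun a => ‖sandwich (Q b) (Q b) (f a) - (1 / 2 : ℂ) • q‖) F (𝓝 0) := by
    have h00 : Tendsto (fun a => ‖⟪b 0, (f a).op (b 0)⟫_ℂ - 1 / 2‖) F (𝓝 0) := by
      have := ((D.hf 0 0 two_pos two_pos).sub_const (1 / 2)).norm
      simpa using this
    have h01 : Tendsto (fun a => ‖⟪b 0, (f a).op (b 1)⟫_ℂ‖) F (𝓝 0) := by
      have := (D.hf 0 1 two_pos one_lt_two).norm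
      simpa using this
    have h10 : Tendsto (fun a => ‖⟪b 1, (f a).op (b 0)⟫_ℂ‖) F (𝓝 0) := by
      have := (D.hf 1 0 one_lt_two two_pos).norm
      simpa using this
    have h11 : Tendsto (fun a => ‖⟪b 1, (f a).op (b 1)⟫_ℂ - 1 / 2‖) F (𝓝 0) := by
      have := ((D.hf 1 1 one_lt_two one_lt_two).sub_const (1 / 2)).norm
      simpa using this
    have htot := ((h00.add h01).add h10).add h11
    norm_num at htot
    refine squeeze_zero (fun a => norm_nonneg _) (fun a => ?_) htot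
    have hdec : sandwich (Q b) (Q b) (f a) - (1 / 2 : ℂ) • q
        = (⟪b 0, (f a).op (b 0)⟫_ℂ - 1 / 2) • rk (b 0) (b 0)
        + ⟪b 0, (f a).op (b 1)⟫_ℂ • rk (b 0) (b 1)
        + ⟪b 1, (f a).op (b 0)⟫_ℂ • rk (b 1) (b 0)
        + (⟪b 1, (f a).op (b 1)⟫_ℂ - 1 / 2) • rk (b 1) (b 1) := by
      apply op_injective
      ext v
      simp only [op_add, op_smul, op_rk, op_sandwich, add_apply, smul_apply, op_sub,
        sub_apply, InnerProductSpace.rankOne_apply, mul_apply_eq_comp, op_q]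
      rw [Q_apply b ((f a).op (Q b v)), Q_apply b v, map_add, map_smul, map_smul,
        inner_add_right, inner_add_right, inner_smul_right, inner_smul_right, inner_smul_right,
        inner_smul_right]
      module
    have hb : ∀ k, ‖b k‖ = 1 := b.orthonormal.1
    have n1 : ∀ (z : ℂ) (k l : ℕ), ‖z • (rk (b k) (b l) : Schatten b p)‖ ≤ ‖z‖ := by
      intro z k l
      rw [norm_smul]
      calc ‖z‖ * ‖(rk (b k) (b l) : Schatten b p)‖ ≤ ‖z‖ * (‖b k‖ * ‖b l‖) := by
            gcongr; exact norm_rk_le _ _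
        _ = ‖z‖ := by rw [hb, hb]; ring
    rw [hdec]
    refine (norm_add_le _ _).trans (add_le_add ?_ (n1 _ _ _))
    refine (norm_add_le _ _).trans (add_le_add ?_ (n1 _ _ _))
    exact (norm_add_le _ _).trans (add_le_add (n1 _ _ _) (n1 _ _ _))
  have hRR := D.tendsto_sandwich_R hp2
  have hS := D.tendsto_sum
  -- the final estimate
  have hlim : Tendsto (fun a => 1 + (‖f a + g a - q‖
      + 2 * ‖sandwich (Q b) (Q b) (f a) - (1 / 2 : ℂ) • q‖
      + 2 * ‖sandwich (R b) (R b) (f a)‖)) F (𝓝 1) := by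
    have := ((hS.add (hQQ.const_mul 2)).add (hRR.const_mul 2)).const_add 1
    simpa using this
  have hle : ∀ᶠ a in F, (2 : ℝ) ^ (1 / p) / Real.sqrt 2 ≤ 1 + (‖f a + g a - q‖
      + 2 * ‖sandwich (Q b) (Q b) (f a) - (1 / 2 : ℂ) • q‖
      + 2 * ‖sandwich (R b) (R b) (f a)‖) := by
    filter_upwards [D.iso, D.norm_f] with a ha hfa
    set m : Schatten b p := Complex.I • f a + ((1 - Complex.I) / 2) • (f a + g a) with hm
    have hI : Complex.I * Complex.I = -1 := Complex.I_mul_I
    have hm1 : (1 : ℂ) • f a + (-Complex.I) • g a = (1 - Complex.I) • m := by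
      rw [hm]
      have e1 : (1 - Complex.I) • (Complex.I • f a + ((1 - Complex.I) / 2) • (f a + g a))
        = ((1 - Complex.I) * Complex.I + (1 - Complex.I) * ((1 - Complex.I) / 2)) • f a
          + ((1 - Complex.I) * ((1 - Complex.I) / 2)) • g a := by module
      rw [e1]
      have e2 : (1 - Complex.I) * Complex.I + (1 - Complex.I) * ((1 - Complex.I) / 2) = 1 := by
        linear_combination (-1 / 2 : ℂ) * hI
      have e3 : (1 - Complex.I) * ((1 - Complex.I) / 2) = -Complex.I := by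
        linear_combination (1 / 2 : ℂ) * hI
      rw [e2, e3]
    have hnI : ‖(1 : ℂ) - Complex.I‖ = Real.sqrt 2 := by
      rw [Complex.norm_def, Complex.normSq_apply]
      norm_num
    have hmn : Real.sqrt 2 * ‖m‖ = 2 ^ (1 / p) := by
      have h1 := ha 1 (-Complex.I)
      rw [hm1, norm_smul, hnI, norm_neg, Complex.norm_I, norm_one, Real.one_rpow] at h1
      have h2 : ((Real.sqrt 2 * ‖m‖) ^ p) ^ (1 / p) = 2 ^ (1 / p) := by
        rw [h1]; norm_num
      rwa [← Real.rpow_mul (by positivity), mul_one_div_cancel hp0.ne', Real.rpow_one] at h2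
    have hs2 : 0 < Real.sqrt 2 := by positivity
    rw [← hmn, mul_div_assoc, mul_comm, div_mul_cancel₀ _ hs2.ne']
    -- `m` is close to `W f W`
    have hdiff : m - sandwich W W (f a) = ((1 - Complex.I) / 2) • (f a + g a - q)
        - (1 - Complex.I) • (sandwich (Q b) (Q b) (f a) - (1 / 2 : ℂ) • q)
        + (1 + Complex.I) • sandwich (R b) (R b) (f a) := by
      apply op_injective
      have e1 : (sandwich W W (f a)).op = Q b * (f a).op * Q b
          + Complex.I • (Q b * (f a).op * R b + R b * (f a).op * Q b)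
          - R b * (f a).op * R b := by
        rw [op_sandwich, hW]
        simp only [add_mul, mul_add, smul_mul_assoc, mul_smul_comm, smul_add]
        rw [smul_smul, hI]
        module
      have e2 : (f a).op = Q b * (f a).op * Q b + Q b * (f a).op * R b
          + R b * (f a).op * Q b + R b * (f a).op * R b := by
        have h1 : Q b + R b = 1 := by rw [R]; abel
        calc (f a).op = (Q b + R b) * (f a).op * (Q b + R b) := by rw [h1, one_mul, mul_one]
          _ = _ := by simp only [add_mul, mul_add]; abel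
      rw [op_sub, e1, hm]
      simp only [op_add, op_smul, op_sub, op_sandwich]
      have e3 : Complex.I • (f a).op = Complex.I • (Q b * (f a).op * Q b + Q b * (f a).op * R b
          + R b * (f a).op * Q b + R b * (f a).op * R b) := by rw [← e2]
      rw [e3]
      module
    have hWf : ‖sandwich W W (f a)‖ ≤ 1 := by
      refine (norm_sandwich_le _ _ _).trans ?_
      rw [hfa, mul_one]
      nlinarith [norm_nonneg W]
    have hn2 : ‖(1 : ℂ) + Complex.I‖ = Real.sqrt 2 := by
      rw [Complex.norm_def, Complex.normSq_apply]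
      norm_num
    have hsq : Real.sqrt 2 ≤ 2 := by
      rw [Real.sqrt_le_left (by norm_num)]; norm_num
    calc ‖m‖ = ‖sandwich W W (f a) + (m - sandwich W W (f a))‖ := by congr 1; abel
      _ ≤ ‖sandwich W W (f a)‖ + ‖m - sandwich W W (f a)‖ := norm_add_le _ _
      _ ≤ 1 + (‖f a + g a - q‖
          + 2 * ‖sandwich (Q b) (Q b) (f a) - (1 / 2 : ℂ) • q‖
          + 2 * ‖sandwich (R b) (R b) (f a)‖) := by
        refine add_le_add hWf ?_
        rw [hdiff]
        refine (norm_add_le _ _).trans (add_le_add ?_ ?_)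
        · refine (norm_sub_le _ _).trans (add_le_add ?_ ?_)
          · rw [norm_smul, norm_div, hnI]
            have : Real.sqrt 2 / ‖(2 : ℂ)‖ ≤ 1 := by
              rw [Complex.norm_ofNat]; linarith
            nlinarith [norm_nonneg (f a + g a - q)]
          · rw [norm_smul, hnI]
            gcongr
        · rw [norm_smul, hn2]
          gcongr
  have hfin : (2 : ℝ) ^ (1 / p) / Real.sqrt 2 ≤ 1 := ge_of_tendsto hlim hle
  have hlt : Real.sqrt 2 < (2 : ℝ) ^ (1 / p) := by
    rw [Real.sqrt_eq_rpow]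
    apply Real.rpow_lt_rpow_of_exponent_lt (by norm_num)
    rw [div_lt_div_iff₀ (by norm_num) hp0]
    linarith
  have hs2 : 0 < Real.sqrt 2 := by positivity
  rw [div_le_one hs2] at hfin
  linarith

end PairData

end Pool.Agent.Helper55.SvN
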