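import Mathlib
import Pool.Agent.Helper55_Schatten.Small

open scoped InnerProductSpace ENNReal Topology
open InnerProductSpace (rankOne)
open Filter

namespace Pool.Agent.Helper55.SvN

universe u

variable {H : Type u} [NormedAddCommGroup H] [InnerProductSpace ℂ H] [CompleteSpace H]

theorem enorm_map_sq {ι : Type*} {c : H →L[ℂ] H} (e : HilbertBasis ι ℂ H)
    (he : ∀ i, (star c * c) (e i) = ((‖c (e i)‖ ^ 2 : ℝ) : ℂ) • e i) (x : H) :
    ‖c x‖ₑ ^ 2 = ∑' i, ‖c (e i)‖ₑ ^ 2 * ‖⟪x, e i⟫_ℂ‖ₑ ^ 2 := by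
  set D : H →L[ℂ] H := star c * c with hD
  have hDsa : IsSelfAdjoint D := IsSelfAdjoint.star_mul_self c
  have h1 := e.hasSum_inner_mul_inner x (D x)
  have h2 : ∀ i, ⟪x, e i⟫_ℂ * ⟪e i, D x⟫_ℂ
      = ((‖c (e i)‖ ^ 2 * ‖⟪x, e i⟫_ℂ‖ ^ 2 : ℝ) : ℂ) := by
    intro i
    have h3 : ⟪e i, D x⟫_ℂ = ⟪D (e i), x⟫_ℂ := (hDsa.isSymmetric (e i) x).symm
    rw [h3, he, inner_smul_left, Complex.conj_ofReal, ← inner_conj_symm (e i) x]
    rw [mul_left_comm, Complex.mul_conj, Complex.normSq_eq_norm_sq]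
    push_cast
    ring
  simp_rw [h2] at h1
  have h3 : ⟪x, D x⟫_ℂ = ((‖c x‖ ^ 2 : ℝ) : ℂ) := by
    rw [hD, mul_apply_eq_comp, ContinuousLinearMap.star_eq_adjoint,
      ContinuousLinearMap.adjoint_inner_right, inner_self_eq_norm_sq_to_K]
    simp
  rw [h3] at h1
  have h4 : HasSum (fun i => ‖c (e i)‖ ^ 2 * ‖⟪x, e i⟫_ℂ‖ ^ 2) (‖c x‖ ^ 2) := by exact_mod_cast h1
  rw [enorm_sq_eq, ← h4.tsum_eq,
    ENNReal.ofReal_tsum_of_nonneg (fun _ => by positivity) h4.summable]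
  refine tsum_congr fun i => ?_
  rw [ENNReal.ofReal_mul (by positivity), ENNReal.ofReal_pow (norm_nonneg _),
    ofReal_norm, ENNReal.ofReal_pow (norm_nonneg _), ofReal_norm]

theorem tsum_enorm_rpow_le (b : HilbertBasis ℕ ℂ H) {p : ℝ} (hp : 2 ≤ p)
    {c : H →L[ℂ] H} (hc : IsCompactOperator c) {κ : Type*} {x : κ → H} (hx : Bessel x) :
    ∑' k, ‖c (x k)‖ₑ ^ p ≤ traceAbsPow b p c := by
  obtain ⟨ι, e, he⟩ := exists_singularBasis hc
  have hp0 : 0 < p := by linarith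
  rw [traceAbsPow_eq_tsum b hp0 e he]
  have hpow : ∀ y : H, ‖y‖ₑ ^ p = (‖y‖ₑ ^ 2) ^ (p / 2) := by
    intro y
    rw [← ENNReal.rpow_natCast, ← ENNReal.rpow_mul]
    congr 1; push_cast; ring
  have heB := Bessel.of_orthonormal e.orthonormal
  have hsymm : ∀ a b : H, ‖⟪a, b⟫_ℂ‖ₑ = ‖⟪b, a⟫_ℂ‖ₑ := by
    intro a b
    rw [← ofReal_norm, ← ofReal_norm, norm_inner_symm]
  calc ∑' k, ‖c (x k)‖ₑ ^ p
      = ∑' k, (∑' i, ‖c (e i)‖ₑ ^ 2 * ‖⟪x k, e i⟫_ℂ‖ₑ ^ 2) ^ (p / 2) :=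
        tsum_congr fun k => by rw [hpow, enorm_map_sq e he]
    _ ≤ ∑' k, ∑' i, (‖c (e i)‖ₑ ^ 2) ^ (p / 2) * ‖⟪x k, e i⟫_ℂ‖ₑ ^ 2 := by
        refine ENNReal.tsum_le_tsum fun k => tsum_mul_rpow_le _ _ ?_ (by linarith)
        calc ∑' i, ‖⟪x k, e i⟫_ℂ‖ₑ ^ 2 = ∑' i, ‖⟪e i, x k⟫_ℂ‖ₑ ^ 2 := by simp_rw [hsymm (x k)]
          _ ≤ ‖x k‖ₑ ^ 2 := heB _
          _ ≤ (1 : ℝ≥0∞) ^ 2 := by gcongr; exact hx.enorm_le_one k
          _ = 1 := one_pow 2
    _ = ∑' i, ‖c (e i)‖ₑ ^ p * ∑' k, ‖⟪x k, e i⟫_ℂ‖ₑ ^ 2 := by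
        rw [ENNReal.tsum_comm]
        simp_rw [← hpow, ENNReal.tsum_mul_left]
    _ ≤ ∑' i, ‖c (e i)‖ₑ ^ p * 1 := ENNReal.tsum_le_tsum fun i => by
        gcongr
        refine (hx (e i)).trans ?_
        calc ‖e i‖ₑ ^ 2 ≤ (1 : ℝ≥0∞) ^ 2 := by gcongr; exact heB.enorm_le_one i
          _ = 1 := one_pow 2
    _ = ∑' i, ‖c (e i)‖ₑ ^ p := by simp

/-- elementary lemma -/
theorem eq_zero_of_forall_rpow_le {s a p : ℝ} (hp : 2 < p) (hs : 0 < s)
    (h : ∀ t : ℝ, 0 < t → (s ^ 2 + t ^ 2 * a ^ 2) ^ (p / 2) ≤ s ^ p + t ^ p) : a = 0 := by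
  by_contra ha
  have ha2 : 0 < a ^ 2 := by positivity
  set K : ℝ := s ^ p * (p / 2 * (a ^ 2 / s ^ 2)) with hK
  have hKpos : 0 < K := by positivity
  have key : ∀ t : ℝ, 0 < t → K ≤ t ^ (p - 2) := by
    intro t ht
    have h1 := h t ht
    have h2 : s ^ 2 + t ^ 2 * a ^ 2 = s ^ 2 * (1 + t ^ 2 * (a ^ 2 / s ^ 2)) := by
      field_simp
    have h3 : (s ^ 2) ^ (p / 2) = s ^ p := by
      rw [← Real.rpow_natCast, ← Real.rpow_mul hs.le]; congr 1; push_cast; ring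
    rw [h2, Real.mul_rpow (by positivity) (by positivity), h3] at h1
    have h4 : 1 + p / 2 * (t ^ 2 * (a ^ 2 / s ^ 2)) ≤ (1 + t ^ 2 * (a ^ 2 / s ^ 2)) ^ (p / 2) :=
      one_add_mul_self_le_rpow_one_add (by
        have : 0 ≤ t ^ 2 * (a ^ 2 / s ^ 2) := by positivity
        linarith) (by linarith)
    have hsp : 0 < s ^ p := by positivity
    have h5 : s ^ p * (1 + p / 2 * (t ^ 2 * (a ^ 2 / s ^ 2))) ≤ s ^ p + t ^ p :=
      (mul_le_mul_of_nonneg_left h4 hsp.le).trans h1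
    have h6 : t ^ p = t ^ 2 * t ^ (p - 2) := by
      rw [← Real.rpow_natCast, ← Real.rpow_add ht]; congr 1; push_cast; ring
    have h7 : t ^ 2 * K ≤ t ^ 2 * t ^ (p - 2) := by
      rw [← h6, hK]; nlinarith
    exact le_of_mul_le_mul_left h7 (by positivity)
  have hlim : Tendsto (fun t : ℝ => t ^ (p - 2)) (𝓝[>] 0) (𝓝 0) := by
    have h1 : ContinuousAt (fun t : ℝ => t ^ (p - 2)) 0 :=
      Real.continuousAt_rpow_const _ _ (Or.inr (by linarith))
    have h2 := h1.tendsto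
    rw [Real.zero_rpow (by linarith)] at h2
    exact h2.mono_left nhdsWithin_le_nhds
  have hle : K ≤ 0 := by
    refine ge_of_tendsto hlim ?_
    filter_upwards [self_mem_nhdsWithin] with t ht
    exact key t ht
  linarith

namespace Schatten

variable {b : HilbertBasis ℕ ℂ H} {p : ℝ} [hp : Fact (1 ≤ p)]

/-- For `p > 2`, if `f`, `g` span an isometric copy of `ℓ^p_2` then `g` vanishes on
`(ker f)ᗮ`. -/
theorem apply_eq_zero_of_iso (hp2 : 2 < p) {f g : Schatten b p}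
    (hiso : ∀ z w : ℂ, ‖z • f + w • g‖ ^ p = ‖z‖ ^ p + ‖w‖ ^ p) {v : H}
    (hv : v ∈ (LinearMap.ker (f.op : H →ₗ[ℂ] H))ᗮ) : g.op v = 0 := by
  have hp0 : 0 < p := zero_lt_p
  obtain ⟨ι, e, he⟩ := exists_singularBasis f.isCompact_op
  have heB := Bessel.of_orthonormal e.orthonormal
  have hfnorm : ‖f‖ ^ p = 1 := by
    have := hiso 1 0
    simpa [Real.zero_rpow hp0.ne'] using this
  have key : ∀ i, f.op (e i) ≠ 0 → g.op (e i) = 0 := by
    intro i hi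
    have hs : 0 < ‖f.op (e i)‖ := norm_pos_iff.2 hi
    rw [← norm_eq_zero]
    apply eq_zero_of_forall_rpow_le hp2 hs
    intro t ht
    -- the two sums
    set F : ι → ℝ := fun k => (‖f.op (e k)‖ ^ 2 + t ^ 2 * ‖g.op (e k)‖ ^ 2) ^ (p / 2) with hF
    set G : ι → ℝ := fun k => ‖f.op (e k)‖ ^ p with hG
    have hGe : ∀ k, G k = (‖f.op (e k)‖ ^ 2) ^ (p / 2) := by
      intro k
      rw [← Real.rpow_natCast, ← Real.rpow_mul (norm_nonneg _)]
      change ‖f.op (e k)‖ ^ p = _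
      congr 1; push_cast; ring
    have hGF : ∀ k, G k ≤ F k := by
      intro k
      rw [hGe, hF]
      apply Real.rpow_le_rpow (by positivity) _ (by positivity)
      nlinarith [mul_nonneg (sq_nonneg t) (sq_nonneg ‖g.op (e k)‖)]
    have hG0 : ∀ k, 0 ≤ G k := fun k => by positivity
    have hF0 : ∀ k, 0 ≤ F k := fun k => (hG0 k).trans (hGF k)
    have hplus := tsum_enorm_rpow_le b hp2.le ((1 : ℂ) • f + (t : ℂ) • g).isCompact_op heB
    have hminus := tsum_enorm_rpow_le b hp2.le ((1 : ℂ) • f + (-t : ℂ) • g).isCompact_op heB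
    rw [← ofReal_norm_rpow, hiso, norm_one, Real.one_rpow, Complex.norm_real, Real.norm_eq_abs,
      abs_of_pos ht] at hplus
    rw [← ofReal_norm_rpow, hiso, norm_one, Real.one_rpow, norm_neg, Complex.norm_real,
      Real.norm_eq_abs, abs_of_pos ht] at hminus
    have hpt : ∀ k, ENNReal.ofReal (F k) + ENNReal.ofReal (F k)
        ≤ ‖((1 : ℂ) • f + (t : ℂ) • g).op (e k)‖ₑ ^ p
          + ‖((1 : ℂ) • f + (-t : ℂ) • g).op (e k)‖ₑ ^ p := by
      intro k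
      rw [← ofReal_norm, ← ofReal_norm, ENNReal.ofReal_rpow_of_nonneg (norm_nonneg _) hp0.le,
        ENNReal.ofReal_rpow_of_nonneg (norm_nonneg _) hp0.le,
        ← ENNReal.ofReal_add (hF0 k) (hF0 k),
        ← ENNReal.ofReal_add (by positivity) (by positivity)]
      apply ENNReal.ofReal_le_ofReal
      have e1 : ((1 : ℂ) • f + (t : ℂ) • g).op (e k) = f.op (e k) + (t : ℂ) • g.op (e k) := by
        simp only [op_add, op_smul, add_apply, smul_apply, one_smul]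
      have e2 : ((1 : ℂ) • f + (-t : ℂ) • g).op (e k) = f.op (e k) - (t : ℂ) • g.op (e k) := by
        simp only [op_add, op_smul, op_neg, add_apply, smul_apply, neg_apply, one_smul, neg_smul,
          sub_eq_add_neg]
      rw [e1, e2]
      set x := f.op (e k)
      set y := (t : ℂ) • g.op (e k)
      have hy : ‖y‖ ^ 2 = t ^ 2 * ‖g.op (e k)‖ ^ 2 := by
        rw [norm_smul, Complex.norm_real, Real.norm_eq_abs, abs_of_pos ht, mul_pow]
      have hpar : ‖x + y‖ ^ 2 + ‖x - y‖ ^ 2 = 2 * (‖x‖ ^ 2 + ‖y‖ ^ 2) := by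
        have := parallelogram_law_with_norm ℂ x y
        nlinarith [this]
      have hconv := (convexOn_rpow (by linarith : 1 ≤ p / 2)).2
        (Set.mem_Ici.2 (by positivity : 0 ≤ ‖x + y‖ ^ 2))
        (Set.mem_Ici.2 (by positivity : 0 ≤ ‖x - y‖ ^ 2))
        (by norm_num : (0 : ℝ) ≤ 1 / 2) (by norm_num : (0 : ℝ) ≤ 1 / 2) (by norm_num)
      simp only [smul_eq_mul] at hconv
      have e3 : 1 / 2 * ‖x + y‖ ^ 2 + 1 / 2 * ‖x - y‖ ^ 2 = ‖x‖ ^ 2 + ‖y‖ ^ 2 := by linarith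
      have e4 : ∀ z : H, (‖z‖ ^ 2) ^ (p / 2) = ‖z‖ ^ p := by
        intro z
        rw [← Real.rpow_natCast, ← Real.rpow_mul (norm_nonneg _)]
        congr 1; push_cast; ring
      rw [e3, e4, e4, hy] at hconv
      have e5 : F k = (‖x‖ ^ 2 + t ^ 2 * ‖g.op (e k)‖ ^ 2) ^ (p / 2) := rfl
      rw [e5]
      linarith
    have htot : ∑' k, ENNReal.ofReal (F k) ≤ ENNReal.ofReal (1 + t ^ p) := by
      have h1 : ∑' k, ENNReal.ofReal (F k) + ∑' k, ENNReal.ofReal (F k)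
          ≤ ENNReal.ofReal (1 + t ^ p) + ENNReal.ofReal (1 + t ^ p) := by
        rw [← ENNReal.tsum_add]
        refine (ENNReal.tsum_le_tsum hpt).trans ?_
        rw [ENNReal.tsum_add]
        exact add_le_add hplus hminus
      rw [← two_mul, ← two_mul] at h1
      exact (ENNReal.mul_le_mul_iff_right (by norm_num) (by norm_num)).1 h1
    have hone : ∑' k, ENNReal.ofReal (G k) = ENNReal.ofReal 1 := by
      rw [← hfnorm, ofReal_norm_rpow, traceAbsPow_eq_tsum b hp0 e he]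
      refine tsum_congr fun k => ?_
      rw [hG, ← ENNReal.ofReal_rpow_of_nonneg (norm_nonneg _) hp0.le, ofReal_norm]
    have hdiff : ENNReal.ofReal 1 + ENNReal.ofReal (F i - G i) ≤ ENNReal.ofReal (1 + t ^ p) := by
      calc ENNReal.ofReal 1 + ENNReal.ofReal (F i - G i)
          ≤ ∑' k, ENNReal.ofReal (G k) + ∑' k, ENNReal.ofReal (F k - G k) := by
            rw [hone]
            gcongr
            exact ENNReal.le_tsum i
        _ = ∑' k, ENNReal.ofReal (F k) := by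
            rw [← ENNReal.tsum_add]
            refine tsum_congr fun k => ?_
            rw [← ENNReal.ofReal_add (hG0 k) (by linarith [hGF k])]
            congr 1; ring
        _ ≤ _ := htot
    rw [← ENNReal.ofReal_add zero_le_one (by linarith [hGF i]),
      ENNReal.ofReal_le_ofReal_iff (by positivity)] at hdiff
    have hfin : F i ≤ G i + t ^ p := by linarith
    exact hfin
  -- expand `v` in the basis `e`
  have h1 := (e.hasSum_repr v).mapL g.op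
  have h2 : ∀ i, g.op (e.repr v i • e i) = 0 := by
    intro i
    rcases eq_or_ne (f.op (e i)) 0 with h | h
    · have hmem : e i ∈ LinearMap.ker (f.op : H →ₗ[ℂ] H) := by simpa using h
      have h3 : ⟪e i, v⟫_ℂ = 0 := (Submodule.mem_orthogonal _ _).1 hv _ hmem
      rw [e.repr_apply_apply, h3, zero_smul, map_zero]
    · rw [map_smul, key i h, smul_zero]
  simp_rw [h2] at h1
  exact h1.unique hasSum_zero

end Schatten

namespace PairData

open Schatten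

variable {b : HilbertBasis ℕ ℂ H} {p : ℝ} [hp : Fact (1 ≤ p)] {α : Type*} {F : Filter α}
  {f g : α → Schatten b p}

/-- `‖(1 - q) f‖ ≤ ‖f + g - q‖`. -/
theorem norm_R_f_le (hp2 : 2 < p) {f g : Schatten b p}
    (hiso : ∀ z w : ℂ, ‖z • f + w • g‖ ^ p = ‖z‖ ^ p + ‖w‖ ^ p) :
    ‖sandwich (R b) 1 f‖ ≤ ‖f + g - q‖ := by
  set K : Submodule ℂ H := (LinearMap.ker (f.op : H →ₗ[ℂ] H))ᗮ with hK
  set P : H →L[ℂ] H := K.starProjection with hP
  have hPn : ‖P‖ ≤ 1 := K.starProjection_norm_le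
  have hgP : ∀ v, g.op (P v) = 0 := fun v =>
    apply_eq_zero_of_iso hp2 hiso (K.starProjection_apply_mem v)
  have hclosed : IsClosed ((LinearMap.ker (f.op : H →ₗ[ℂ] H) : Submodule ℂ H) : Set H) :=
    f.op.isClosed_ker
  have hfP : ∀ v, f.op (P v) = f.op v := by
    intro v
    have h1 : v - P v ∈ Kᗮ := K.sub_starProjection_mem_orthogonal v
    rw [hK, Submodule.orthogonal_orthogonal_eq_closure, hclosed.submodule_topologicalClosure_eq]
      at h1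
    have h2 : f.op (v - P v) = 0 := by simpa using h1
    rw [map_sub, sub_eq_zero] at h2
    exact h2.symm
  have hRQ : ∀ v, R b (Q b v) = 0 := by
    intro v
    apply ext_inner_right ℂ
    intro w
    rw [inner_R_left, inner_Q_left, Q_R, inner_zero_right, inner_zero_left]
  have h : sandwich (R b) 1 f = sandwich (R b) P (f + g - q) := by
    apply op_injective
    ext v
    simp only [op_sandwich, op_sub, op_add, mul_one, mul_apply_eq_comp, sub_apply, add_apply,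
      op_q, hfP, hgP, add_zero, map_sub, hRQ, sub_zero]
  rw [h]
  refine (norm_sandwich_le _ _ _).trans ?_
  have h1 : ‖R b‖ * ‖P‖ ≤ 1 := by
    have := norm_R_le b
    nlinarith [norm_nonneg (R b), norm_nonneg P]
  nlinarith [norm_nonneg (f + g - q)]

/-- the error term -/
noncomputable def err (f g : Schatten b p) : ℝ :=
  ‖⟪b 0, f.op (b 0)⟫_ℂ - 1 / 2‖ + ‖⟪b 0, f.op (b 1)⟫_ℂ‖ + ‖⟪b 1, f.op (b 0)⟫_ℂ‖
    + ‖⟪b 1, f.op (b 1)⟫_ℂ - 1 / 2‖ + ‖f + g - q‖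

theorem err_nonneg (f g : Schatten b p) : 0 ≤ err f g := by unfold err; positivity

/-- `‖f* z‖² ≤ (1/2 + err) ‖z‖²` for `z` in the range of `q`. -/
theorem norm_star_sq_le (hp2 : 2 < p) {f g : Schatten b p}
    (hiso : ∀ z w : ℂ, ‖z • f + w • g‖ ^ p = ‖z‖ ^ p + ‖w‖ ^ p) {z : H} (hz : Q b z = z) :
    ‖(star f.op) z‖ ^ 2 ≤ (1 / 2 + err f g) * ‖z‖ ^ 2 := by
  have hp0 : 0 < p := zero_lt_p
  have hfnorm : ‖f‖ = 1 := by
    have := hiso 1 0
    simp only [one_smul, zero_smul, add_zero, norm_one, norm_zero, Real.one_rpow,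
      Real.zero_rpow hp0.ne'] at this
    have h4 : (‖f‖ ^ p) ^ (1 / p) = 1 := by rw [this, Real.one_rpow]
    rwa [← Real.rpow_mul (norm_nonneg _), mul_one_div_cancel hp0.ne', Real.rpow_one] at h4
  set w : H := (star f.op) z with hw
  have hmem : w ∈ (LinearMap.ker (f.op : H →ₗ[ℂ] H))ᗮ := by
    rw [Submodule.mem_orthogonal]
    intro u hu
    have hu' : f.op u = 0 := by simpa using hu
    rw [hw, ContinuousLinearMap.star_eq_adjoint, ContinuousLinearMap.adjoint_inner_right, hu',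
      inner_zero_left]
  have hgw : g.op w = 0 := apply_eq_zero_of_iso hp2 hiso hmem
  set d : Schatten b p := f + g - q with hd
  have h1 : f.op w = Q b w + d.op w := by
    rw [hd, op_sub, op_add, op_q, sub_apply, add_apply, hgw]
    abel
  have h2 : ((‖w‖ ^ 2 : ℝ) : ℂ) = ⟪z, f.op w⟫_ℂ := by
    have : ⟪z, f.op w⟫_ℂ = ⟪w, w⟫_ℂ := by
      rw [hw, ContinuousLinearMap.star_eq_adjoint, ContinuousLinearMap.adjoint_inner_left]
    rw [this, inner_self_eq_norm_sq_to_K]; simp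
  have h3 : ⟪z, f.op w⟫_ℂ = ⟪f.op z, z⟫_ℂ + ⟪z, d.op w⟫_ℂ := by
    rw [h1, inner_add_right, ← inner_Q_left, hz, hw, ContinuousLinearMap.star_eq_adjoint,
      ContinuousLinearMap.adjoint_inner_right]
  have hz2 : z = ⟪b 0, z⟫_ℂ • b 0 + ⟪b 1, z⟫_ℂ • b 1 := by rw [← Q_apply, hz]
  have hzn := norm_sq_eq b z
  have hRz : R b z = 0 := by rw [R_apply, hz, sub_self]
  rw [hRz, norm_zero] at hzn
  set z0 := ⟪b 0, z⟫_ℂ with hz0
  set z1 := ⟪b 1, z⟫_ℂ with hz1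
  have hz0' : ‖z0‖ ≤ ‖z‖ := by
    refine (sq_le_sq₀ (norm_nonneg _) (norm_nonneg _)).1 ?_
    nlinarith [sq_nonneg ‖z1‖]
  have hz1' : ‖z1‖ ≤ ‖z‖ := by
    refine (sq_le_sq₀ (norm_nonneg _) (norm_nonneg _)).1 ?_
    nlinarith [sq_nonneg ‖z0‖]
  have h4 : ⟪z, f.op z⟫_ℂ = ((‖z‖ ^ 2 / 2 : ℝ) : ℂ)
      + (starRingEnd ℂ z0 * z0 * (⟪b 0, f.op (b 0)⟫_ℂ - 1 / 2)
      + starRingEnd ℂ z0 * z1 * ⟪b 0, f.op (b 1)⟫_ℂ
      + starRingEnd ℂ z1 * z0 * ⟪b 1, f.op (b 0)⟫_ℂ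
      + starRingEnd ℂ z1 * z1 * (⟪b 1, f.op (b 1)⟫_ℂ - 1 / 2)) := by
    have e1 : ⟪z, f.op z⟫_ℂ = starRingEnd ℂ z0 * z0 * ⟪b 0, f.op (b 0)⟫_ℂ
      + starRingEnd ℂ z0 * z1 * ⟪b 0, f.op (b 1)⟫_ℂ
      + starRingEnd ℂ z1 * z0 * ⟪b 1, f.op (b 0)⟫_ℂ
      + starRingEnd ℂ z1 * z1 * ⟪b 1, f.op (b 1)⟫_ℂ := by
      conv_lhs => rw [hz2]
      simp only [map_add, map_smul, inner_add_left, inner_add_right, inner_smul_left,
        inner_smul_right]
      ring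
    have e2 : ((‖z‖ ^ 2 / 2 : ℝ) : ℂ) = (starRingEnd ℂ z0 * z0 + starRingEnd ℂ z1 * z1) / 2 := by
      rw [hzn, mul_comm _ z0, mul_comm _ z1, Complex.mul_conj, Complex.mul_conj,
        Complex.normSq_eq_norm_sq, Complex.normSq_eq_norm_sq]
      push_cast
      ring
    rw [e1, e2]
    ring
  have hprod : ∀ u v c : ℂ, ‖u‖ ≤ ‖z‖ → ‖v‖ ≤ ‖z‖ → ‖starRingEnd ℂ u * v * c‖ ≤ ‖z‖ ^ 2 * ‖c‖ := by
    intro u v c hu hv
    rw [norm_mul, norm_mul, RCLike.norm_conj, pow_two]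
    gcongr
  have h5 : ‖⟪z, f.op z⟫_ℂ‖ ≤ ‖z‖ ^ 2 / 2 + ‖z‖ ^ 2 * (‖⟪b 0, f.op (b 0)⟫_ℂ - 1 / 2‖
      + ‖⟪b 0, f.op (b 1)⟫_ℂ‖ + ‖⟪b 1, f.op (b 0)⟫_ℂ‖ + ‖⟪b 1, f.op (b 1)⟫_ℂ - 1 / 2‖) := by
    rw [h4]
    refine (norm_add_le _ _).trans (add_le_add ?_ ?_)
    · rw [Complex.norm_real, Real.norm_eq_abs, abs_of_nonneg (by positivity)]
    · rw [mul_add, mul_add, mul_add]
      refine (norm_add_le _ _).trans (add_le_add ?_ (hprod _ _ _ hz1' hz1'))
      refine (norm_add_le _ _).trans (add_le_add ?_ (hprod _ _ _ hz1' hz0'))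
      exact (norm_add_le _ _).trans (add_le_add (hprod _ _ _ hz0' hz0') (hprod _ _ _ hz0' hz1'))
  have hwz : ‖w‖ ≤ ‖z‖ := by
    calc ‖w‖ ≤ ‖star f.op‖ * ‖z‖ := (star f.op).le_opNorm z
      _ ≤ 1 * ‖z‖ := by
        gcongr
        rw [norm_star, ← hfnorm]
        exact norm_op_le f
      _ = ‖z‖ := one_mul _
  have h6 : ‖⟪z, d.op w⟫_ℂ‖ ≤ ‖z‖ ^ 2 * ‖d‖ := by
    calc ‖⟪z, d.op w⟫_ℂ‖ ≤ ‖z‖ * ‖d.op w‖ := norm_inner_le_norm _ _
      _ ≤ ‖z‖ * (‖d.op‖ * ‖w‖) := by gcongr; exact d.op.le_opNorm w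
      _ ≤ ‖z‖ * (‖d‖ * ‖z‖) := by gcongr; exact norm_op_le d
      _ = ‖z‖ ^ 2 * ‖d‖ := by ring
  have h7 : ‖w‖ ^ 2 ≤ ‖⟪z, f.op z⟫_ℂ‖ + ‖⟪z, d.op w⟫_ℂ‖ := by
    have e1 : ‖((‖w‖ ^ 2 : ℝ) : ℂ)‖ = ‖w‖ ^ 2 := by
      rw [Complex.norm_real, Real.norm_eq_abs, abs_of_nonneg (by positivity)]
    rw [← e1, h2, h3, ← norm_inner_symm (f.op z) z]
    exact norm_add_le _ _
  unfold err
  rw [← hd]
  nlinarith [h5, h6, h7]

/-- `‖q f‖^p ≤ 2 (1/2 + err)^{p/2}`. -/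
theorem norm_Q_f_rpow_le (hp2 : 2 < p) {f g : Schatten b p}
    (hiso : ∀ z w : ℂ, ‖z • f + w • g‖ ^ p = ‖z‖ ^ p + ‖w‖ ^ p) :
    ‖sandwich (Q b) 1 f‖ ^ p ≤ 2 * (1 / 2 + err f g) ^ (p / 2) := by
  have hp0 : 0 < p := zero_lt_p
  set κ : ℝ := 1 / 2 + err f g with hκ
  have hκ0 : 0 < κ := by have := err_nonneg f g; linarith
  set c : Schatten b p := sandwich (Q b) 1 f with hc
  have hcop : c.op = Q b * f.op := by rw [hc, op_sandwich, mul_one]
  have hQb0 : Q b (b 0) = b 0 := by rw [Q_apply, inner_basis, inner_basis]; simp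
  have hQb1 : Q b (b 1) = b 1 := by rw [Q_apply, inner_basis, inner_basis]; simp
  have hQQ : ∀ v, Q b (Q b v) = Q b v := by
    intro v
    conv_lhs => rw [Q_apply b v, map_add, map_smul, map_smul, hQb0, hQb1]
    rw [Q_apply]
  -- operator norm of `c`
  have hstar : ∀ v, ‖(star c.op) v‖ ^ 2 ≤ κ * ‖v‖ ^ 2 := by
    intro v
    rw [hcop, star_mul, star_Q, mul_apply_eq_comp]
    refine (norm_star_sq_le hp2 hiso (hQQ v)).trans ?_
    have := norm_Q_apply_le b v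
    gcongr
  have hopn : ‖c.op‖ ≤ Real.sqrt κ := by
    rw [← norm_star]
    refine ContinuousLinearMap.opNorm_le_bound _ (Real.sqrt_nonneg _) fun v => ?_
    rw [← Real.sqrt_sq (norm_nonneg v), ← Real.sqrt_mul hκ0.le]
    exact Real.le_sqrt_of_sq_le (hstar v)
  obtain ⟨ι, e, he⟩ := exists_singularBasis c.isCompact_op
  have hen : ∀ i, ‖e i‖ = 1 := e.orthonormal.1
  -- Hilbert-Schmidt norm of `c`
  have hHS : ∑' i, ENNReal.ofReal (‖c.op (e i)‖ ^ 2) ≤ ENNReal.ofReal (2 * κ) := by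
    have h1 : ∀ i, ENNReal.ofReal (‖c.op (e i)‖ ^ 2)
        = ‖⟪e i, (star f.op) (b 0)⟫_ℂ‖ₑ ^ 2 + ‖⟪e i, (star f.op) (b 1)⟫_ℂ‖ₑ ^ 2 := by
      intro i
      have h2 := norm_sq_eq b (c.op (e i))
      have h3 : R b (c.op (e i)) = 0 := by
        rw [hcop, mul_apply_eq_comp, R_apply, hQQ, sub_self]
      have h4 : ∀ k, Q b (b k) = b k → ‖⟪b k, c.op (e i)⟫_ℂ‖ = ‖⟪e i, (star f.op) (b k)⟫_ℂ‖ := by
        intro k hk
        rw [hcop, mul_apply_eq_comp, ← inner_Q_left, hk, ContinuousLinearMap.star_eq_adjoint,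
          ContinuousLinearMap.adjoint_inner_right, norm_inner_symm]
      rw [h2, h3, h4 0 hQb0, h4 1 hQb1, norm_zero, ← ofReal_norm, ← ofReal_norm,
        ← ENNReal.ofReal_pow (norm_nonneg _), ← ENNReal.ofReal_pow (norm_nonneg _),
        ← ENNReal.ofReal_add (by positivity) (by positivity)]
      congr 1
      ring
    simp_rw [h1]
    rw [ENNReal.tsum_add, tsum_enorm_inner_sq e, tsum_enorm_inner_sq e, enorm_sq_eq, enorm_sq_eq,
      ← ENNReal.ofReal_add (by positivity) (by positivity)]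
    apply ENNReal.ofReal_le_ofReal
    have h5 := norm_star_sq_le hp2 hiso hQb0
    have h6 := norm_star_sq_le hp2 hiso hQb1
    rw [b.orthonormal.1, one_pow, mul_one] at h5 h6
    linarith
  -- conclusion
  have hpt : ∀ i, ‖c.op (e i)‖ₑ ^ p
      ≤ ENNReal.ofReal (κ ^ ((p - 2) / 2)) * ENNReal.ofReal (‖c.op (e i)‖ ^ 2) := by
    intro i
    rw [← ofReal_norm, ENNReal.ofReal_rpow_of_nonneg (norm_nonneg _) hp0.le,
      ← ENNReal.ofReal_mul (by positivity)]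
    apply ENNReal.ofReal_le_ofReal
    have h1 : ‖c.op (e i)‖ ≤ Real.sqrt κ := by
      calc ‖c.op (e i)‖ ≤ ‖c.op‖ * ‖e i‖ := c.op.le_opNorm _
        _ ≤ Real.sqrt κ := by rw [hen, mul_one]; exact hopn
    have h2 : ‖c.op (e i)‖ ^ (p - 2) ≤ κ ^ ((p - 2) / 2) := by
      calc ‖c.op (e i)‖ ^ (p - 2) ≤ (Real.sqrt κ) ^ (p - 2) :=
            Real.rpow_le_rpow (norm_nonneg _) h1 (by linarith)
        _ = κ ^ ((p - 2) / 2) := by
            rw [Real.sqrt_eq_rpow, ← Real.rpow_mul hκ0.le]; congr 1; ring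
    rcases eq_or_lt_of_le (norm_nonneg (c.op (e i))) with h0 | h0
    · rw [← h0, Real.zero_rpow hp0.ne']; simp
    · have h3 : ‖c.op (e i)‖ ^ p = ‖c.op (e i)‖ ^ (p - 2) * ‖c.op (e i)‖ ^ 2 := by
        rw [← Real.rpow_natCast, ← Real.rpow_add h0]; congr 1; push_cast; ring
      rw [h3]
      gcongr
  have hfin : ENNReal.ofReal (‖c‖ ^ p) ≤ ENNReal.ofReal (2 * κ ^ (p / 2)) := by
    rw [ofReal_norm_rpow, traceAbsPow_eq_tsum b hp0 e he]
    calc ∑' i, ‖c.op (e i)‖ₑ ^ p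
        ≤ ∑' i, ENNReal.ofReal (κ ^ ((p - 2) / 2)) * ENNReal.ofReal (‖c.op (e i)‖ ^ 2) :=
          ENNReal.tsum_le_tsum hpt
      _ = ENNReal.ofReal (κ ^ ((p - 2) / 2)) * ∑' i, ENNReal.ofReal (‖c.op (e i)‖ ^ 2) :=
          ENNReal.tsum_mul_left
      _ ≤ ENNReal.ofReal (κ ^ ((p - 2) / 2)) * ENNReal.ofReal (2 * κ) := by gcongr
      _ = ENNReal.ofReal (2 * κ ^ (p / 2)) := by
          rw [← ENNReal.ofReal_mul (by positivity)]
          congr 1
          have : κ ^ (p / 2) = κ ^ ((p - 2) / 2) * κ := by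
            rw [← Real.rpow_add_one hκ0.ne']; congr 1; ring
          rw [this]; ring
  exact (ENNReal.ofReal_le_ofReal_iff (by positivity)).1 hfin

/-- The case `p > 2`: there are no such families. -/
theorem false_of_two_lt [F.NeBot] (D : PairData F f g) (hp2 : 2 < p) : False := by
  have hp0 : 0 < p := zero_lt_p
  have herr : Tendsto (fun a => err (f a) (g a)) F (𝓝 0) := by
    have h00 : Tendsto (fun a => ‖⟪b 0, (f a).op (b 0)⟫_ℂ - 1 / 2‖) F (𝓝 0) := by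
      have := ((D.hf 0 0 two_pos two_pos).sub_const (1 / 2)).norm
      simpa using this
    have h01 : Tendsto (fun a => ‖⟪b 0, (f a).op (b 1)⟫_ℂ‖) F (𝓝 0) := by
      have := (D.hf 0 1 two_pos one_lt_two).norm
      simpa using this
    have h10 : Tendsto (fun a => ‖⟪b 1, (f a).op (b 0)⟫_ℂ‖) F (𝓝 0) := by
      have := (D.hf 1 0 one_lt_two two_pos).norm
      simpa using this
    have h11 : Tendsto (fun a => ‖⟪b 1, (f a).op (b 1)⟫_ℂ - 1 / 2‖) F (𝓝 0) := by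
      have := ((D.hf 1 1 one_lt_two one_lt_two).sub_const (1 / 2)).norm
      simpa using this
    have htot := (((h00.add h01).add h10).add h11).add D.tendsto_sum
    norm_num at htot
    unfold err
    norm_num
    exact htot
  have hlim : Tendsto (fun a => (2 * (1 / 2 + err (f a) (g a)) ^ (p / 2)) ^ (1 / p)
      + ‖f a + g a - q‖) F (𝓝 ((2 * (1 / 2 : ℝ) ^ (p / 2)) ^ (1 / p) + 0)) := by
    refine Tendsto.add ?_ D.tendsto_sum
    have h1 := ((herr.const_add (1 / 2)).rpow_const (p := p / 2)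
      (Or.inr (by positivity))).const_mul 2
    rw [add_zero] at h1
    exact h1.rpow_const (Or.inr (by positivity))
  have hge : ∀ᶠ a in F, (1 : ℝ) ≤ (2 * (1 / 2 + err (f a) (g a)) ^ (p / 2)) ^ (1 / p)
      + ‖f a + g a - q‖ := by
    filter_upwards [D.iso, D.norm_f] with a ha hfa
    have h1 : f a = sandwich (Q b) 1 (f a) + sandwich (R b) 1 (f a) := by
      apply op_injective
      rw [op_add, op_sandwich, op_sandwich, mul_one, mul_one, ← add_mul]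
      have : Q b + R b = 1 := by rw [R]; abel
      rw [this, one_mul]
    calc (1 : ℝ) = ‖f a‖ := hfa.symm
      _ = ‖sandwich (Q b) 1 (f a) + sandwich (R b) 1 (f a)‖ := by rw [← h1]
      _ ≤ ‖sandwich (Q b) 1 (f a)‖ + ‖sandwich (R b) 1 (f a)‖ := norm_add_le _ _
      _ ≤ _ := by
        refine add_le_add ?_ (norm_R_f_le hp2 ha)
        have h2 := Real.rpow_le_rpow (by positivity) (norm_Q_f_rpow_le hp2 ha)
          (by positivity : 0 ≤ 1 / p)
        rwa [← Real.rpow_mul (norm_nonneg _), mul_one_div_cancel hp0.ne', Real.rpow_one] at h2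
  have hfin := ge_of_tendsto hlim hge
  rw [add_zero] at hfin
  have hlt : (2 * (1 / 2 : ℝ) ^ (p / 2)) ^ (1 / p) < 1 := by
    apply Real.rpow_lt_one (by positivity) _ (by positivity)
    have h1 : (1 / 2 : ℝ) ^ (p / 2) < (1 / 2 : ℝ) ^ (1 : ℝ) :=
      Real.rpow_lt_rpow_of_exponent_gt (by norm_num) (by norm_num) (by linarith)
    rw [Real.rpow_one] at h1
    linarith
  linarith

end PairData

end Pool.Agent.Helper55.SvN
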