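import Mathlib
import Pool.Agent.Helper55_Schatten.Space

/-!
# Operators on Schatten classes: absolute contractions and the `pw`-topology

Definitions only; `Schatten b p` is the Schatten-von Neumann class `𝔖_p` (see
`Pool.Agent.Helper55_Schatten.Space`).
-/

open scoped InnerProductSpace ENNReal Topology

namespace Pool.Agent.Helper55.SvN

universe u

variable {H : Type u} [NormedAddCommGroup H] [InnerProductSpace ℂ H] [CompleteSpace H]

/-- The duality `(x, y) = tr (x y)`, the trace being computed in the orthonormal basis `b`. -/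
noncomputable def tracePairing (b : HilbertBasis ℕ ℂ H) (x y : H →L[ℂ] H) : ℂ :=
  ∑' i : ℕ, ⟪b i, x (y (b i))⟫_ℂ

/-- The bounded linear operators on `𝔖_p`. -/
abbrev BoundedOp (b : HilbertBasis ℕ ℂ H) (p : ℝ) [Fact (1 ≤ p)] : Type u :=
  Schatten b p →L[ℂ] Schatten b p

section

variable {b : HilbertBasis ℕ ℂ H} {p : ℝ} [Fact (1 ≤ p)]

/-- The operator `T x ∈ 𝔖_p ⊆ B(H)`. -/
noncomputable def BoundedOp.val (T : BoundedOp b p) (x : Schatten b p) : H →L[ℂ] H := (T x).op

/-- The coefficient `(T^n x, y)`, for `x ∈ 𝔖_p` and `y ∈ 𝔖_{p'}`, `p' = p / (p - 1)`. -/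
noncomputable def pwCoeff (n : ℕ) (x : Schatten b p) (y : Schatten b (p / (p - 1)))
    (T : BoundedOp b p) : ℂ := tracePairing b ((T ^ n) x).op y.op

variable (b p) in
/-- The `pw`-topology on the space of bounded operators on `𝔖_p`: the coarsest topology for which
all the functions `T ↦ (T^n x, y)` (`n ≥ 0`, `x ∈ 𝔖_p`, `y ∈ 𝔖_{p'}`, `p' = p / (p - 1)`)
are continuous. A net `T_a` converges to `T` in it iff `(T_a^n x, y) → (T^n x, y)` for all
`n`, `x`, `y`. -/
@[instance_reducible]
noncomputable def pwTopology : TopologicalSpace (BoundedOp b p) :=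
  ⨅ (n : ℕ) (x : Schatten b p) (y : Schatten b (p / (p - 1))),
    TopologicalSpace.induced (pwCoeff n x y) inferInstance

/-- `T` is an absolute contraction on `𝔖_p`: it maps `𝔖_1` into `𝔖_1`, and
`‖T x‖_{𝔖_1} ≤ ‖x‖_{𝔖_1}` and `‖T x‖_{𝔖_∞} ≤ ‖x‖_{𝔖_∞}` (operator norm) for all `x ∈ 𝔖_1`. -/
def IsAbsoluteContraction (T : BoundedOp b p) : Prop :=
  ∀ x : Schatten b p, MemSchatten b 1 x.op →
    MemSchatten b 1 (T.val x) ∧ schattenNorm b 1 (T.val x) ≤ schattenNorm b 1 x.op ∧
      ‖T.val x‖ ≤ ‖x.op‖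

variable (b p) in
/-- The set `𝓤` of all (not necessarily surjective) linear isometries of `𝔖_p`. -/
def isometries : Set (BoundedOp b p) :=
  {V | ∀ x, ‖V x‖ = ‖x‖}

variable (b p) in
/-- The `pw`-closure of the set of isometries. -/
noncomputable def pwClosureIsometries : Set (BoundedOp b p) :=
  closure[pwTopology b p] (isometries b p)

end

end Pool.Agent.Helper55.SvN
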