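import Mathlib
import Pool.Agent.Helper55_Schatten.Large
import Pool.Agent.Helper55_Schatten.Operators

open scoped InnerProductSpace ENNReal Topology
open InnerProductSpace (rankOne)
open Filter

namespace Pool.Agent.Helper55.SvN

universe u

variable {H : Type u} [NormedAddCommGroup H] [InnerProductSpace ℂ H] [CompleteSpace H]

namespace Schatten

variable {b : HilbertBasis ℕ ℂ H} {p : ℝ} [hp : Fact (1 ≤ p)]

/-- The functional `x ↦ tr (q x) / 2`. -/
noncomputable def halfTrace (x : Schatten b p) : ℂ :=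
  (⟪b 0, x.op (b 0)⟫_ℂ + ⟪b 1, x.op (b 1)⟫_ℂ) / 2

omit hp in
theorem norm_inner_le (x : Schatten b p) (i : ℕ) : ‖⟪b i, x.op (b i)⟫_ℂ‖ ≤ ‖x.op‖ := by
  have hb : ∀ k, ‖b k‖ = 1 := b.orthonormal.1
  calc ‖⟪b i, x.op (b i)⟫_ℂ‖ ≤ ‖b i‖ * ‖x.op (b i)‖ := norm_inner_le_norm _ _
    _ ≤ ‖b i‖ * (‖x.op‖ * ‖b i‖) := by gcongr; exact x.op.le_opNorm _
    _ = ‖x.op‖ := by rw [hb]; ring

theorem norm_halfTrace_le (x : Schatten b p) : ‖halfTrace x‖ ≤ ‖x.op‖ := by
  have h0 := norm_inner_le x 0
  have h1 := norm_inner_le x 1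
  rw [halfTrace, norm_div, Complex.norm_ofNat, div_le_iff₀ (by norm_num)]
  refine (norm_add_le _ _).trans ?_
  linarith

/-- The counterexample `T x = (tr (q x) / 2) q`. -/
noncomputable def T₀ (b : HilbertBasis ℕ ℂ H) (p : ℝ) [Fact (1 ≤ p)] :
    BoundedOp b p :=
  LinearMap.mkContinuous
    { toFun := fun x => halfTrace x • q
      map_add' := fun x y => by
        simp only [halfTrace, op_add, add_apply, inner_add_right]
        module
      map_smul' := fun t x => by
        simp only [halfTrace, op_smul, smul_apply, inner_smul_right, RingHom.id_apply]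
        module }
    ‖(q : Schatten b p)‖ fun x => by
      change ‖halfTrace x • (q : Schatten b p)‖ ≤ _
      rw [norm_smul, mul_comm]
      gcongr
      exact (norm_halfTrace_le x).trans (norm_op_le x)

theorem T₀_apply (x : Schatten b p) : T₀ b p x = halfTrace x • q := rfl

theorem isAbsoluteContraction_T₀ : IsAbsoluteContraction (T₀ b p) := by
  intro x hx
  have : Fact ((1 : ℝ) ≤ 1) := ⟨le_rfl⟩
  have hop : (T₀ b p).val x
      = halfTrace x • rankOne ℂ (b 0) (b 0) + halfTrace x • rankOne ℂ (b 1) (b 1) := by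
    rw [BoundedOp.val, T₀_apply, q, op_smul, op_add, op_rk, op_rk, smul_add]
  obtain ⟨h1, h2⟩ := memSchatten_diag (b := b) (p := 1) 0 1 zero_ne_one (halfTrace x) (halfTrace x)
  rw [← hop] at h1 h2
  refine ⟨h1, ?_, ?_⟩
  · -- trace norm
    have e1 : schattenNorm b 1 ((T₀ b p).val x) = 2 * ‖halfTrace x‖ := by
      rw [schattenNorm, h2]
      simp only [ENNReal.rpow_one, div_one, Real.rpow_one]
      rw [ENNReal.toReal_add enorm_ne_top enorm_ne_top, toReal_enorm]
      ring
    have hb : ∀ k, ‖b k‖ = 1 := b.orthonormal.1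
    have e2 := two_le (mk x.op hx : Schatten b 1) (hb 0) (hb 1) (b.orthonormal.2 zero_ne_one)
      (hb 0) (hb 1) (b.orthonormal.2 zero_ne_one)
    rw [norm_def, op_mk] at e2
    simp only [Real.rpow_one] at e2
    rw [e1]
    refine le_trans ?_ e2
    rw [halfTrace, norm_div, Complex.norm_ofNat, mul_div_cancel₀ _ (by norm_num)]
    exact norm_add_le _ _
  · -- operator norm
    rw [BoundedOp.val, T₀_apply, op_smul, op_q, norm_smul]
    calc ‖halfTrace x‖ * ‖Q b‖ ≤ ‖x.op‖ * 1 := by
          gcongr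
          · exact norm_halfTrace_le x
          · exact norm_Q_le b
      _ = ‖x.op‖ := mul_one _

omit [CompleteSpace H] in
theorem tracePairing_rankOne (x : H →L[ℂ] H) (i j : ℕ) :
    tracePairing b x (rankOne ℂ (b j) (b i)) = ⟪b i, x (b j)⟫_ℂ := by
  rw [tracePairing, tsum_eq_single i]
  · rw [InnerProductSpace.rankOne_apply, inner_basis, if_pos rfl, one_smul]
  · intro k hk
    rw [InnerProductSpace.rankOne_apply, inner_basis, if_neg hk.symm, zero_smul,
      map_zero, inner_zero_right]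

end Schatten

open Schatten

theorem halfTrace_rk {b : HilbertBasis ℕ ℂ H} {p : ℝ} [Fact (1 ≤ p)] {k : ℕ} (hk : k < 2) :
    halfTrace (rk (b k) (b k) : Schatten b p) = 1 / 2 := by
  rw [halfTrace, op_rk, InnerProductSpace.rankOne_apply, InnerProductSpace.rankOne_apply,
    inner_basis, inner_basis, inner_smul_right, inner_smul_right, inner_basis, inner_basis]
  interval_cases k <;> simp

theorem tendsto_entry {b : HilbertBasis ℕ ℂ H} {p : ℝ} [Fact (1 ≤ p)] (hp1 : 1 < p)
    (x : Schatten b p) (i j : ℕ) (T : BoundedOp b p) :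
    Tendsto (fun V : BoundedOp b p => ⟪b i, (V x).op (b j)⟫_ℂ)
      (@nhds _ (pwTopology b p) T) (𝓝 ⟪b i, (T x).op (b j)⟫_ℂ) := by
  have hq : Fact (1 ≤ p / (p - 1)) := ⟨by
    rw [le_div_iff₀ (by linarith)]; linarith⟩
  have hy : MemSchatten b (p / (p - 1)) (rankOne ℂ (b j) (b i)) := memSchatten_rankOne _ _
  have hcont : @Continuous _ _ (pwTopology b p) _
      (fun V : BoundedOp b p =>
        tracePairing b ((V ^ 1) x).op (rankOne ℂ (b j) (b i))) := by
    unfold pwTopology
    refine continuous_iInf_dom (i := 1) ?_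
    refine continuous_iInf_dom (i := x) ?_
    refine continuous_iInf_dom (i := ⟨rankOne ℂ (b j) (b i), hy⟩) ?_
    exact continuous_induced_dom (f := pwCoeff 1 x ⟨rankOne ℂ (b j) (b i), hy⟩)
  simp only [pow_one, tracePairing_rankOne] at hcont
  exact @Continuous.tendsto _ _ (pwTopology b p) _ _ hcont T

theorem neBot_of_mem_closure {X : Type*} (t : TopologicalSpace X) {s : Set X} {x : X}
    (h : x ∈ closure[t] s) : (@nhds X t x ⊓ 𝓟 s).NeBot :=
  mem_closure_iff_clusterPt.1 h

theorem main (b : HilbertBasis ℕ ℂ H) (p : ℝ) [Fact (1 ≤ p)] (hp1 : 1 < p) (hp2 : p ≠ 2) :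
    T₀ b p ∉ pwClosureIsometries b p := by
  intro hcl
  have hcl' : (@nhds _ (pwTopology b p) (T₀ b p) ⊓ 𝓟 (isometries b p)).NeBot :=
    neBot_of_mem_closure _ hcl
  set F := @nhds _ (pwTopology b p) (T₀ b p) ⊓ 𝓟 (isometries b p) with hF
  have hent : ∀ k i j : ℕ, k < 2 → i < 2 → j < 2 →
      Tendsto (fun V : BoundedOp b p =>
        ⟪b i, (V (rk (b k) (b k))).op (b j)⟫_ℂ) F (𝓝 (if i = j then 1 / 2 else 0)) := by
    intro k i j hk hi hj
    have h1 := (tendsto_entry hp1 (rk (b k) (b k)) i j (T₀ b p)).mono_left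
      (inf_le_left : F ≤ _)
    have h2 : ⟪b i, (T₀ b p (rk (b k) (b k))).op (b j)⟫_ℂ = if i = j then 1 / 2 else 0 := by
      rw [T₀_apply, halfTrace_rk hk, op_smul, op_q, smul_apply, inner_smul_right, Q_apply,
        inner_add_right, inner_smul_right, inner_smul_right, inner_basis, inner_basis,
        inner_basis, inner_basis]
      interval_cases i <;> interval_cases j <;> simp
    rw [h2] at h1
    exact h1
  have D : PairData F (fun V => V (rk (b 0) (b 0))) (fun V => V (rk (b 1) (b 1))) := by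
    refine ⟨?_, fun i j hi hj => hent 0 i j two_pos hi hj,
      fun i j hi hj => hent 1 i j one_lt_two hi hj⟩
    have h1 : isometries b p ∈ F := mem_inf_of_right (mem_principal_self _)
    filter_upwards [h1] with V hV z w
    rw [← map_smul, ← map_smul, ← map_add, hV, norm_diag 0 1 zero_ne_one]
  rcases lt_or_gt_of_ne hp2 with h | h
  · exact D.false_of_lt_two h
  · exact D.false_of_two_lt h

end Pool.Agent.Helper55.SvN
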