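import Mathlib
import Pool.Agent.Helper55_Schatten.Main

/-!
# Sanity checks for the definitions

* `traceAbsPow_basis_indep`: `tr |c|^p` does not depend on the orthonormal basis;
* `summable_tracePairing`: for `x ∈ 𝔖_p`, `y ∈ 𝔖_{p'}` the series defining `tr (x y)` converges
  absolutely.
-/

open scoped InnerProductSpace ENNReal Topology
open Filter

namespace Pool.Agent.Helper55.SvN

universe u

variable {H : Type u} [NormedAddCommGroup H] [InnerProductSpace ℂ H] [CompleteSpace H]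

/-- `tr |c|^p` does not depend on the orthonormal basis used to compute the trace. -/
theorem traceAbsPow_basis_indep (b b' : HilbertBasis ℕ ℂ H) {p : ℝ} (hp : 0 < p)
    {c : H →L[ℂ] H} (hc : IsCompactOperator c) : traceAbsPow b p c = traceAbsPow b' p c := by
  obtain ⟨ι, e, he⟩ := exists_singularBasis hc
  rw [traceAbsPow_eq_tsum b hp e he, traceAbsPow_eq_tsum b' hp e he]

theorem tsum_mul_le_Lp {ι : Type*} (f g : ι → ℝ≥0∞) {p q : ℝ} (hpq : p.HolderConjugate q) :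
    ∑' i, f i * g i ≤ (∑' i, f i ^ p) ^ (1 / p) * (∑' i, g i ^ q) ^ (1 / q) := by
  rw [ENNReal.tsum_eq_iSup_sum]
  refine iSup_le fun F => (ENNReal.inner_le_Lp_mul_Lq F f g hpq).trans ?_
  have h1 := hpq.pos
  have h2 := hpq.symm.pos
  gcongr
  · exact ENNReal.sum_le_tsum F
  · exact ENNReal.sum_le_tsum F

theorem enorm_star_map_sq {ι : Type*} {c : H →L[ℂ] H} (e : HilbertBasis ι ℂ H) (x : H) :
    ‖(star c) x‖ₑ ^ 2 = ∑' i, ‖c (e i)‖ₑ ^ 2 * ‖⟪x, leftVec c e i⟫_ℂ‖ₑ ^ 2 := by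
  rw [← tsum_enorm_inner_sq e]
  refine tsum_congr fun i => ?_
  have h : ‖⟪e i, (star c) x⟫_ℂ‖ = ‖c (e i)‖ * ‖⟪x, leftVec c e i⟫_ℂ‖ := by
    rw [ContinuousLinearMap.star_eq_adjoint, ContinuousLinearMap.adjoint_inner_right,
      norm_inner_symm]
    conv_lhs => rw [← smul_leftVec c e i]
    rw [inner_smul_right, norm_mul, Complex.norm_real, norm_norm]
  rw [← ofReal_norm, h, ENNReal.ofReal_mul (norm_nonneg _), ofReal_norm, ofReal_norm, mul_pow]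

theorem tsum_enorm_star_rpow_le (b : HilbertBasis ℕ ℂ H) {p : ℝ} (hp : 2 ≤ p)
    {c : H →L[ℂ] H} (hc : IsCompactOperator c) {κ : Type*} {x : κ → H} (hx : Bessel x) :
    ∑' k, ‖(star c) (x k)‖ₑ ^ p ≤ traceAbsPow b p c := by
  obtain ⟨ι, e, he⟩ := exists_singularBasis hc
  have hp0 : 0 < p := by linarith
  rw [traceAbsPow_eq_tsum b hp0 e he]
  have hpow : ∀ y : H, ‖y‖ₑ ^ p = (‖y‖ₑ ^ 2) ^ (p / 2) := by
    intro y
    rw [← ENNReal.rpow_natCast, ← ENNReal.rpow_mul]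
    congr 1; push_cast; ring
  have hgB := bessel_leftVec e.orthonormal he
  have hsymm : ∀ a b : H, ‖⟪a, b⟫_ℂ‖ₑ = ‖⟪b, a⟫_ℂ‖ₑ := by
    intro a b
    rw [← ofReal_norm, ← ofReal_norm, norm_inner_symm]
  calc ∑' k, ‖(star c) (x k)‖ₑ ^ p
      = ∑' k, (∑' i, ‖c (e i)‖ₑ ^ 2 * ‖⟪x k, leftVec c e i⟫_ℂ‖ₑ ^ 2) ^ (p / 2) :=
        tsum_congr fun k => by rw [hpow, enorm_star_map_sq e]
    _ ≤ ∑' k, ∑' i, (‖c (e i)‖ₑ ^ 2) ^ (p / 2) * ‖⟪x k, leftVec c e i⟫_ℂ‖ₑ ^ 2 := by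
        refine ENNReal.tsum_le_tsum fun k => tsum_mul_rpow_le _ _ ?_ (by linarith)
        calc ∑' i, ‖⟪x k, leftVec c e i⟫_ℂ‖ₑ ^ 2 = ∑' i, ‖⟪leftVec c e i, x k⟫_ℂ‖ₑ ^ 2 := by
              simp_rw [hsymm (x k)]
          _ ≤ ‖x k‖ₑ ^ 2 := hgB _
          _ ≤ (1 : ℝ≥0∞) ^ 2 := by gcongr; exact hx.enorm_le_one k
          _ = 1 := one_pow 2
    _ = ∑' i, ‖c (e i)‖ₑ ^ p * ∑' k, ‖⟪x k, leftVec c e i⟫_ℂ‖ₑ ^ 2 := by
        rw [ENNReal.tsum_comm]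
        simp_rw [← hpow, ENNReal.tsum_mul_left]
    _ ≤ ∑' i, ‖c (e i)‖ₑ ^ p * 1 := ENNReal.tsum_le_tsum fun i => by
        gcongr
        refine (hx _).trans ?_
        calc ‖leftVec c e i‖ₑ ^ 2 ≤ (1 : ℝ≥0∞) ^ 2 := by gcongr; exact hgB.enorm_le_one i
          _ = 1 := one_pow 2
    _ = ∑' i, ‖c (e i)‖ₑ ^ p := by simp

omit [CompleteSpace H] in
theorem tsum_inner_mul_inner_le (b : HilbertBasis ℕ ℂ H) (u v : H) :
    ∑' i, ‖⟪u, b i⟫_ℂ‖ₑ * ‖⟪b i, v⟫_ℂ‖ₑ ≤ ‖u‖ₑ * ‖v‖ₑ := by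
  have hsymm : ∀ a b : H, ‖⟪a, b⟫_ℂ‖ₑ = ‖⟪b, a⟫_ℂ‖ₑ := by
    intro a b
    rw [← ofReal_norm, ← ofReal_norm, norm_inner_symm]
  have h := tsum_mul_le_Lp (fun i => ‖⟪u, b i⟫_ℂ‖ₑ) (fun i => ‖⟪b i, v⟫_ℂ‖ₑ)
    Real.HolderConjugate.two_two
  have h1 : ∀ w : H, (∑' i, ‖⟪b i, w⟫_ℂ‖ₑ ^ (2 : ℝ)) ^ (1 / 2 : ℝ) = ‖w‖ₑ := by
    intro w
    have h2 : ∀ i, ‖⟪b i, w⟫_ℂ‖ₑ ^ (2 : ℝ) = ‖⟪b i, w⟫_ℂ‖ₑ ^ 2 := fun i => by
      rw [← ENNReal.rpow_natCast]; norm_num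
    simp_rw [h2]
    rw [tsum_enorm_inner_sq, ← ENNReal.rpow_natCast, ← ENNReal.rpow_mul]
    norm_num
  have h3 : ∀ i, ‖⟪u, b i⟫_ℂ‖ₑ = ‖⟪b i, u⟫_ℂ‖ₑ := fun i => hsymm _ _
  simp_rw [h3] at h ⊢
  rw [h1, h1] at h
  exact h

/-- For `x ∈ 𝔖_p` and `y ∈ 𝔖_q`, `1/p + 1/q = 1`, the series `∑ ⟨b_i, x y b_i⟩` defining `tr (x y)`
converges absolutely (so that `tracePairing` is the genuine duality). -/
theorem summable_tracePairing (b : HilbertBasis ℕ ℂ H) {p q : ℝ} (hpq : p.HolderConjugate q)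
    {x y : H →L[ℂ] H} (hx : MemSchatten b p x) (hy : MemSchatten b q y) :
    Summable fun i => ‖⟪b i, (x * y) (b i)⟫_ℂ‖ := by
  have hp0 := hpq.pos
  have hq0 := hpq.symm.pos
  suffices h : ∑' i, ‖⟪b i, (x * y) (b i)⟫_ℂ‖ₑ < ∞ by
    have h1 : ∑' i, ENNReal.ofReal ‖⟪b i, (x * y) (b i)⟫_ℂ‖ ≠ ∞ := by
      simp_rw [ofReal_norm]
      exact h.ne
    exact (ENNReal.summable_toReal h1).congr fun i => by
      rw [ENNReal.toReal_ofReal (norm_nonneg _)]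
  have hsymm : ∀ a b : H, ‖⟪a, b⟫_ℂ‖ₑ = ‖⟪b, a⟫_ℂ‖ₑ := by
    intro a b
    rw [← ofReal_norm, ← ofReal_norm, norm_inner_symm]
  rcases le_total 2 p with h2 | h2
  · -- `p ≥ 2`: decompose `y`
    obtain ⟨ι, e, he⟩ := exists_singularBasis hy.1
    have hgB := bessel_leftVec e.orthonormal he
    have hexp : ∀ i, ‖⟪b i, (x * y) (b i)⟫_ℂ‖ₑ
        ≤ ∑' n, ‖⟪e n, b i⟫_ℂ‖ₑ * ‖⟪b i, x (y (e n))⟫_ℂ‖ₑ := by
      intro i
      have h1 := e.hasSum_repr (b i)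
      have h3 := (h1.mapL (x * y)).mapL (innerSL ℂ (b i))
      rw [innerSL_apply_apply] at h3
      rw [← h3.tsum_eq]
      refine enorm_tsum_le_tsum_enorm.trans (ENNReal.tsum_le_tsum fun n => ?_)
      rw [map_smul, map_smul, innerSL_apply_apply, e.repr_apply_apply, enorm_smul,
        mul_apply_eq_comp]
    calc ∑' i, ‖⟪b i, (x * y) (b i)⟫_ℂ‖ₑ
        ≤ ∑' i, ∑' n, ‖⟪e n, b i⟫_ℂ‖ₑ * ‖⟪b i, x (y (e n))⟫_ℂ‖ₑ := ENNReal.tsum_le_tsum hexp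
      _ = ∑' n, ∑' i, ‖⟪e n, b i⟫_ℂ‖ₑ * ‖⟪b i, x (y (e n))⟫_ℂ‖ₑ := ENNReal.tsum_comm
      _ ≤ ∑' n, ‖e n‖ₑ * ‖x (y (e n))‖ₑ :=
          ENNReal.tsum_le_tsum fun n => tsum_inner_mul_inner_le b _ _
      _ ≤ ∑' n, ‖x (leftVec y e n)‖ₑ * ‖y (e n)‖ₑ := by
          refine ENNReal.tsum_le_tsum fun n => ?_
          have h1 : ‖e n‖ₑ = 1 := by
            have : ‖e n‖ = 1 := e.orthonormal.1 n
            rw [← ofReal_norm, this]; simp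
          have h3 : x (y (e n)) = ((‖y (e n)‖ : ℝ) : ℂ) • x (leftVec y e n) := by
            conv_lhs => rw [← smul_leftVec y e n]
            rw [map_smul]
          have h4 : ‖((‖y (e n)‖ : ℝ) : ℂ)‖ₑ = ‖y (e n)‖ₑ := by
            rw [← ofReal_norm, ← ofReal_norm, Complex.norm_real, norm_norm]
          rw [h1, one_mul]
          conv_lhs => rw [h3]
          rw [enorm_smul, h4, mul_comm]
      _ ≤ (∑' n, ‖x (leftVec y e n)‖ₑ ^ p) ^ (1 / p) * (∑' n, ‖y (e n)‖ₑ ^ q) ^ (1 / q) :=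
          tsum_mul_le_Lp _ _ hpq
      _ ≤ (traceAbsPow b p x) ^ (1 / p) * (traceAbsPow b q y) ^ (1 / q) := by
          rw [traceAbsPow_eq_tsum b hq0 e he]
          gcongr
          exact tsum_enorm_rpow_le b h2 hx.1 hgB
      _ < ∞ := ENNReal.mul_lt_top
          (ENNReal.rpow_lt_top_of_nonneg (by positivity) hx.2)
          (ENNReal.rpow_lt_top_of_nonneg (by positivity) hy.2)
  · -- `p ≤ 2`: decompose `x`
    have hq2 : 2 ≤ q := by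
      have h1 := hpq.inv_add_inv_eq_one
      have h3 : (1 / 2 : ℝ) ≤ p⁻¹ := by
        rw [one_div]
        exact inv_anti₀ hp0 h2
      have h4 : q⁻¹ ≤ 2⁻¹ := by linarith
      exact (inv_le_inv₀ hq0 (by norm_num)).1 h4
    obtain ⟨ι, e, he⟩ := exists_singularBasis hx.1
    have heB := Bessel.of_orthonormal e.orthonormal
    have hgB := bessel_leftVec e.orthonormal he
    have hexp : ∀ i, ‖⟪b i, (x * y) (b i)⟫_ℂ‖ₑ
        ≤ ∑' n, ‖⟪(star y) (e n), b i⟫_ℂ‖ₑ * ‖⟪b i, x (e n)⟫_ℂ‖ₑ := by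
      intro i
      have h1 := e.hasSum_repr (y (b i))
      have h3 := (h1.mapL x).mapL (innerSL ℂ (b i))
      rw [innerSL_apply_apply, ← mul_apply_eq_comp] at h3
      rw [← h3.tsum_eq]
      refine enorm_tsum_le_tsum_enorm.trans (ENNReal.tsum_le_tsum fun n => ?_)
      rw [map_smul, map_smul, innerSL_apply_apply, e.repr_apply_apply, enorm_smul,
        ContinuousLinearMap.star_eq_adjoint, ContinuousLinearMap.adjoint_inner_left]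
    calc ∑' i, ‖⟪b i, (x * y) (b i)⟫_ℂ‖ₑ
        ≤ ∑' i, ∑' n, ‖⟪(star y) (e n), b i⟫_ℂ‖ₑ * ‖⟪b i, x (e n)⟫_ℂ‖ₑ :=
          ENNReal.tsum_le_tsum hexp
      _ = ∑' n, ∑' i, ‖⟪(star y) (e n), b i⟫_ℂ‖ₑ * ‖⟪b i, x (e n)⟫_ℂ‖ₑ := ENNReal.tsum_comm
      _ ≤ ∑' n, ‖(star y) (e n)‖ₑ * ‖x (e n)‖ₑ :=
          ENNReal.tsum_le_tsum fun n => tsum_inner_mul_inner_le b _ _
      _ = ∑' n, ‖x (e n)‖ₑ * ‖(star y) (e n)‖ₑ := tsum_congr fun n => mul_comm _ _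
      _ ≤ (∑' n, ‖x (e n)‖ₑ ^ p) ^ (1 / p) * (∑' n, ‖(star y) (e n)‖ₑ ^ q) ^ (1 / q) :=
          tsum_mul_le_Lp _ _ hpq
      _ ≤ (traceAbsPow b p x) ^ (1 / p) * (traceAbsPow b q y) ^ (1 / q) := by
          rw [traceAbsPow_eq_tsum b hp0 e he]
          gcongr
          exact tsum_enorm_star_rpow_le b hq2 hy.1 heB
      _ < ∞ := ENNReal.mul_lt_top
          (ENNReal.rpow_lt_top_of_nonneg (by positivity) hx.2)
          (ENNReal.rpow_lt_top_of_nonneg (by positivity) hy.2)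

end Pool.Agent.Helper55.SvN
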